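import Mathlib

set_option autoImplicit false

/-!
# Stable matchings and Galvin's kernel argument

Edges of a bipartite graph are pairs `(a, b) : α × β`; `pa`, `pb` are preference ranks (smaller is
better) at the two ends.
-/

namespace Pool.Agent.Helper18.LE

variable {α β ι κ : Type*} [DecidableEq α] [DecidableEq β] [LinearOrder ι] [LinearOrder κ]

/-- A stable matching exists. -/
theorem exists_stable (pa : α × β → ι) (pb : α × β → κ) : ∀ (n : ℕ) (E : Finset (α × β)), E.card = n →
    (∀ e ∈ E, ∀ e' ∈ E, e.1 = e'.1 → pa e = pa e' → e = e') →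
    (∀ e ∈ E, ∀ e' ∈ E, e.2 = e'.2 → pb e = pb e' → e = e') →
    ∃ M ⊆ E, (∀ e ∈ M, ∀ e' ∈ M, (e.1 = e'.1 ∨ e.2 = e'.2) → e = e') ∧
      ∀ e ∈ E, e ∉ M → ∃ m ∈ M, (m.1 = e.1 ∧ pa m < pa e) ∨ (m.2 = e.2 ∧ pb m < pb e) := by
  intro n
  induction n using Nat.strong_induction_on with
  | _ n ih =>
    intro E hn ha hb
    -- the set of top edges
    let T : Finset (α × β) := E.filter (fun e => ∀ e' ∈ E, e'.1 = e.1 → pa e ≤ pa e')
    have hT1 : ∀ e ∈ T, ∀ e' ∈ T, e.1 = e'.1 → e = e' := by
      intro e he e' he' h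
      rw [Finset.mem_filter] at he he'
      exact ha e he.1 e' he'.1 h (le_antisymm (he.2 e' he'.1 h.symm) (he'.2 e he.1 h))
    have hTtop : ∀ e ∈ E, ∃ m ∈ T, m.1 = e.1 ∧ pa m ≤ pa e := by
      intro e he
      obtain ⟨m, hm, hmin⟩ := Finset.exists_min_image (E.filter (fun e' => e'.1 = e.1)) pa
        ⟨e, by rw [Finset.mem_filter]; exact ⟨he, rfl⟩⟩
      rw [Finset.mem_filter] at hm
      refine ⟨m, ?_, hm.2, hmin e (by rw [Finset.mem_filter]; exact ⟨he, rfl⟩)⟩
      rw [Finset.mem_filter]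
      refine ⟨hm.1, fun e' he' h => hmin e' ?_⟩
      rw [Finset.mem_filter]
      exact ⟨he', h.trans hm.2⟩
    by_cases hmatch : ∀ e ∈ T, ∀ e' ∈ T, e.2 = e'.2 → e = e'
    · refine ⟨T, Finset.filter_subset _ _, ?_, ?_⟩
      · rintro e he e' he' (h | h)
        · exact hT1 e he e' he' h
        · exact hmatch e he e' he' h
      · intro e he heT
        obtain ⟨m, hm, hm1, hm2⟩ := hTtop e he
        refine ⟨m, hm, Or.inl ⟨hm1, lt_of_le_of_ne hm2 ?_⟩⟩
        intro h
        have : m = e := ha m (Finset.mem_filter.1 hm).1 e he hm1 h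
        exact heT (this ▸ hm)
    · push Not at hmatch
      obtain ⟨e₁, he₁, e₂, he₂, h12, hne⟩ := hmatch
      -- wlog `pb e₁ < pb e₂`
      have key : ∀ e₁ ∈ T, ∀ e₂ ∈ T, e₁.2 = e₂.2 → pb e₁ < pb e₂ →
          ∃ M ⊆ E, (∀ e ∈ M, ∀ e' ∈ M, (e.1 = e'.1 ∨ e.2 = e'.2) → e = e') ∧
            ∀ e ∈ E, e ∉ M → ∃ m ∈ M, (m.1 = e.1 ∧ pa m < pa e) ∨ (m.2 = e.2 ∧ pb m < pb e) := by
        intro e₁ he₁ e₂ he₂ h12 hlt
        have he₁E := (Finset.mem_filter.1 he₁).1
        have he₂E := (Finset.mem_filter.1 he₂).1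
        have hcard : (E.erase e₂).card < n := by
          rw [Finset.card_erase_of_mem he₂E, hn]
          have : 0 < E.card := Finset.card_pos.2 ⟨e₂, he₂E⟩
          omega
        obtain ⟨M, hM, hM1, hM2⟩ := ih _ hcard (E.erase e₂) rfl
          (fun e he e' he' => ha e (Finset.mem_of_mem_erase he) e' (Finset.mem_of_mem_erase he'))
          (fun e he e' he' => hb e (Finset.mem_of_mem_erase he) e' (Finset.mem_of_mem_erase he'))
        refine ⟨M, hM.trans (Finset.erase_subset _ _), hM1, ?_⟩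
        intro e he heM
        by_cases hee : e = e₂
        · subst hee
          have he₁' : e₁ ∈ E.erase e := by
            rw [Finset.mem_erase]
            refine ⟨?_, he₁E⟩
            rintro rfl
            exact lt_irrefl _ hlt
          by_cases h1M : e₁ ∈ M
          · exact ⟨e₁, h1M, Or.inr ⟨h12, hlt⟩⟩
          · obtain ⟨m, hm, hm'⟩ := hM2 e₁ he₁' h1M
            rcases hm' with ⟨h1, h2⟩ | ⟨h1, h2⟩
            · exfalso
              have := (Finset.mem_filter.1 he₁).2 m (Finset.mem_of_mem_erase (hM hm)) h1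
              exact absurd h2 (not_lt.2 this)
            · exact ⟨m, hm, Or.inr ⟨h1.trans h12, h2.trans hlt⟩⟩
        · exact hM2 e (by rw [Finset.mem_erase]; exact ⟨hee, he⟩) heM
      rcases lt_trichotomy (pb e₁) (pb e₂) with h | h | h
      · exact key e₁ he₁ e₂ he₂ h12 h
      · exact absurd (hb e₁ (Finset.mem_filter.1 he₁).1 e₂ (Finset.mem_filter.1 he₂).1 h12 h) hne
      · exact key e₂ he₂ e₁ he₁ h12.symm h

/-- Galvin's theorem in the kernel form, for arbitrary preferences at the two ends. -/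
theorem galvin (pa : α × β → ι) (pb : α × β → κ) : ∀ (n : ℕ) (E : Finset (α × β)), E.card = n →
    (∀ e ∈ E, ∀ e' ∈ E, e.1 = e'.1 → pa e = pa e' → e = e') →
    (∀ e ∈ E, ∀ e' ∈ E, e.2 = e'.2 → pb e = pb e' → e = e') →
    ∀ L : α × β → Finset ℕ,
    (∀ e ∈ E, (E.filter (fun e' => e'.1 = e.1 ∧ pa e' < pa e)).card +
      (E.filter (fun e' => e'.2 = e.2 ∧ pb e' < pb e)).card < (L e).card) →
    ∃ c : α × β → ℕ, (∀ e ∈ E, c e ∈ L e) ∧
      ∀ e ∈ E, ∀ e' ∈ E, e ≠ e' → (e.1 = e'.1 ∨ e.2 = e'.2) → c e ≠ c e' := by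
  intro n
  induction n using Nat.strong_induction_on with
  | _ n ih =>
    intro E hn ha hb L hL
    rcases E.eq_empty_or_nonempty with rfl | ⟨e₀, he₀⟩
    · exact ⟨fun _ => 0, by simp, by simp⟩
    have hpos : 0 < (L e₀).card := lt_of_le_of_lt (Nat.zero_le _) (hL e₀ he₀)
    obtain ⟨k₀, hκ⟩ := Finset.card_pos.1 hpos
    obtain ⟨M, hM, hM1, hM2⟩ := exists_stable pa pb _ (E.filter (fun e => k₀ ∈ L e)) rfl
      (fun e he e' he' => ha e (Finset.mem_filter.1 he).1 e' (Finset.mem_filter.1 he').1)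
      (fun e he e' he' => hb e (Finset.mem_filter.1 he).1 e' (Finset.mem_filter.1 he').1)
    have hME : M ⊆ E := hM.trans (Finset.filter_subset _ _)
    have hMne : M.Nonempty := by
      by_cases h : e₀ ∈ M
      · exact ⟨e₀, h⟩
      · obtain ⟨m, hm, _⟩ := hM2 e₀ (by rw [Finset.mem_filter]; exact ⟨he₀, hκ⟩) h
        exact ⟨m, hm⟩
    have hcard : (E \ M).card < n := by
      rw [Finset.card_sdiff_of_subset hME, hn]
      have := Finset.card_pos.2 hMne
      have := Finset.card_le_card hME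
      omega
    obtain ⟨c, hc1, hc2⟩ := ih _ hcard (E \ M) rfl
      (fun e he e' he' => ha e (Finset.mem_sdiff.1 he).1 e' (Finset.mem_sdiff.1 he').1)
      (fun e he e' he' => hb e (Finset.mem_sdiff.1 he).1 e' (Finset.mem_sdiff.1 he').1)
      (fun e => (L e).erase k₀) (by
        intro e he
        rw [Finset.mem_sdiff] at he
        have h0 := hL e he.1
        have hA : ((E \ M).filter (fun e' => e'.1 = e.1 ∧ pa e' < pa e)) ⊆
            (E.filter (fun e' => e'.1 = e.1 ∧ pa e' < pa e)) :=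
          Finset.filter_subset_filter _ Finset.sdiff_subset
        have hB : ((E \ M).filter (fun e' => e'.2 = e.2 ∧ pb e' < pb e)) ⊆
            (E.filter (fun e' => e'.2 = e.2 ∧ pb e' < pb e)) :=
          Finset.filter_subset_filter _ Finset.sdiff_subset
        have hA' := Finset.card_le_card hA
        have hB' := Finset.card_le_card hB
        by_cases hke : k₀ ∈ L e
        · rw [Finset.card_erase_of_mem hke]
          obtain ⟨m, hm, hm'⟩ := hM2 e (by rw [Finset.mem_filter]; exact ⟨he.1, hke⟩) he.2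
          rcases hm' with ⟨h1, h2⟩ | ⟨h1, h2⟩
          · have : ((E \ M).filter (fun e' => e'.1 = e.1 ∧ pa e' < pa e)).card <
                (E.filter (fun e' => e'.1 = e.1 ∧ pa e' < pa e)).card := by
              apply Finset.card_lt_card
              refine ⟨hA, fun hcon => ?_⟩
              have hmem := hcon (Finset.mem_filter.2 ⟨hME hm, h1, h2⟩)
              exact (Finset.mem_sdiff.1 (Finset.mem_filter.1 hmem).1).2 hm
            omega
          · have : ((E \ M).filter (fun e' => e'.2 = e.2 ∧ pb e' < pb e)).card <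
                (E.filter (fun e' => e'.2 = e.2 ∧ pb e' < pb e)).card := by
              apply Finset.card_lt_card
              refine ⟨hB, fun hcon => ?_⟩
              have hmem := hcon (Finset.mem_filter.2 ⟨hME hm, h1, h2⟩)
              exact (Finset.mem_sdiff.1 (Finset.mem_filter.1 hmem).1).2 hm
            omega
        · rw [Finset.erase_eq_of_notMem hke]
          omega)
    refine ⟨fun e => if e ∈ M then k₀ else c e, ?_, ?_⟩
    · intro e he
      by_cases h : e ∈ M
      · simp only [h, if_true]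
        exact (Finset.mem_filter.1 (hM h)).2
      · simp only [h, if_false]
        exact Finset.mem_of_mem_erase (hc1 e (Finset.mem_sdiff.2 ⟨he, h⟩))
    · intro e he e' he' hne hadj
      by_cases h : e ∈ M <;> by_cases h' : e' ∈ M
      · exact absurd (hM1 e h e' h' hadj) hne
      · simp only [h, h', if_true, if_false]
        have := hc1 e' (Finset.mem_sdiff.2 ⟨he', h'⟩)
        exact (Finset.ne_of_mem_erase this).symm
      · simp only [h, h', if_true, if_false]
        have := hc1 e (Finset.mem_sdiff.2 ⟨he, h⟩)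
        exact Finset.ne_of_mem_erase this
      · simp only [h, h', if_false]
        exact hc2 e (Finset.mem_sdiff.2 ⟨he, h⟩) e' (Finset.mem_sdiff.2 ⟨he', h'⟩) hne hadj

end Pool.Agent.Helper18.LE
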