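import Pool.Agent.Helper18.LE.Halving

set_option autoImplicit false
set_option linter.unusedSectionVars false

/-!
# Rounding in a bipartite graph

`rounding`: for prescribed degrees `m b ≤ d b` on one side there is a set of edges with exactly these
degrees such that every vertex `a` of the other side keeps fewer than
`∑_{b ∈ N(a)} m b / d b + 1` edges.
-/

namespace Pool.Agent.Helper18.LE

open Finset

variable {α β : Type*} [DecidableEq α] [DecidableEq β]

/-- The degree of `b`. -/
def db (E : Finset (α × β)) (b : β) : ℕ := (E.filter (fun x => x.2 = b)).card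

theorem db_pos {E : Finset (α × β)} {x : α × β} (hx : x ∈ E) : 0 < db E x.2 :=
  card_pos.2 ⟨x, mem_filter.2 ⟨hx, rfl⟩⟩

theorem db_mono {X E : Finset (α × β)} (h : X ⊆ E) (b : β) : db X b ≤ db E b :=
  card_le_card (filter_subset_filter _ h)

theorem rounding (F : Finset (α × β)) (m : β → ℕ) (hm : ∀ b, m b ≤ db F b) :
    ∃ Y ⊆ F, (∀ b, db Y b = m b) ∧ ∀ a, ((Y.filter (fun x => x.1 = a)).card : ℝ) <
      ∑ x ∈ F.filter (fun x => x.1 = a), (m x.2 : ℝ) / (db F x.2 : ℝ) + 1 := by
  classical
  let y : α × β → ℝ := fun x => (m x.2 : ℝ) / (db F x.2 : ℝ)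
  let f : α → ℝ := fun a => ∑ x ∈ F.filter (fun x => x.1 = a), y x
  have hy0 : ∀ x, 0 ≤ y x := fun x => by positivity
  have hy1 : ∀ x ∈ F, y x ≤ 1 := by
    intro x hx
    have h1 : (0 : ℝ) < db F x.2 := by exact_mod_cast db_pos hx
    have h2 : (m x.2 : ℝ) ≤ db F x.2 := by exact_mod_cast hm x.2
    exact (div_le_one h1).2 h2
  have hf0 : ∀ a, 0 ≤ f a := fun a => sum_nonneg (fun x _ => hy0 x)
  let r : β → ℕ := fun b => db F b - m b
  let ι := {x : α × β // x ∈ F}
  let t : ι → Finset ((Σ _ : β, ℕ) ⊕ (Σ _ : α, ℕ)) := fun x =>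
    (({x.1.2} : Finset β).sigma (fun b => range (r b))).disjSum
      (({x.1.1} : Finset α).sigma (fun a => range ⌈f a⌉₊))
  have hall : ∀ S : Finset ι, S.card ≤ (S.biUnion t).card := by
    intro S
    let S' : Finset (α × β) := S.image Subtype.val
    have hS' : S'.card = S.card := card_image_of_injective _ Subtype.val_injective
    have hS'F : S' ⊆ F := by
      intro x hx
      rw [mem_image] at hx
      obtain ⟨z, _, rfl⟩ := hx
      exact z.2
    let T : Finset ((Σ _ : β, ℕ) ⊕ (Σ _ : α, ℕ)) :=
      ((S'.image Prod.snd).sigma (fun b => range (r b))).disjSum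
        ((S'.image Prod.fst).sigma (fun a => range ⌈f a⌉₊))
    have hT : T ⊆ S.biUnion t := by
      intro z hz
      rw [mem_biUnion]
      rcases z with ⟨b, i⟩ | ⟨a, i⟩
      · simp only [T, inl_mem_disjSum, mem_sigma, mem_image] at hz
        obtain ⟨⟨x, hx, rfl⟩, hi⟩ := hz
        simp only [S', mem_image] at hx
        obtain ⟨w, hw, rfl⟩ := hx
        refine ⟨w, hw, ?_⟩
        simp only [t, inl_mem_disjSum, mem_sigma, mem_singleton]
        exact ⟨trivial, hi⟩
      · simp only [T, inr_mem_disjSum, mem_sigma, mem_image] at hz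
        obtain ⟨⟨x, hx, rfl⟩, hi⟩ := hz
        simp only [S', mem_image] at hx
        obtain ⟨w, hw, rfl⟩ := hx
        refine ⟨w, hw, ?_⟩
        simp only [t, inr_mem_disjSum, mem_sigma, mem_singleton]
        exact ⟨trivial, hi⟩
    refine le_trans ?_ (card_le_card hT)
    have hTc : T.card = ∑ b ∈ S'.image Prod.snd, r b + ∑ a ∈ S'.image Prod.fst, ⌈f a⌉₊ := by
      simp only [T, card_disjSum, card_sigma, card_range]
    rw [← hS', hTc]
    have key : (S'.card : ℝ) ≤
        ((∑ b ∈ S'.image Prod.snd, r b + ∑ a ∈ S'.image Prod.fst, ⌈f a⌉₊ : ℕ) : ℝ) := by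
      have h1 : (S'.card : ℝ) = ∑ x ∈ S', (1 - y x) + ∑ x ∈ S', y x := by
        rw [← sum_add_distrib]
        simp
      have h2 : ∑ x ∈ S', (1 - y x) ≤ ∑ b ∈ S'.image Prod.snd, (r b : ℝ) := by
        rw [← sum_fiberwise_of_maps_to (g := Prod.snd) (t := S'.image Prod.snd)
          (fun x hx => mem_image_of_mem _ hx)]
        apply sum_le_sum
        intro b hb
        rw [mem_image] at hb
        obtain ⟨x₀, hx₀, rfl⟩ := hb
        have hpos : (0 : ℝ) < db F x₀.2 := by exact_mod_cast db_pos (hS'F hx₀)
        calc ∑ x ∈ S'.filter (fun x => x.2 = x₀.2), (1 - y x) ≤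
              ∑ x ∈ F.filter (fun x => x.2 = x₀.2), (1 - y x) := by
              apply sum_le_sum_of_subset_of_nonneg (filter_subset_filter _ hS'F)
              intro x hx _
              have := hy1 x (mem_filter.1 hx).1
              linarith
          _ = ∑ x ∈ F.filter (fun x => x.2 = x₀.2), (1 - (m x₀.2 : ℝ) / (db F x₀.2 : ℝ)) := by
              apply sum_congr rfl
              intro x hx
              rw [mem_filter] at hx
              simp only [y, hx.2]
          _ = (r x₀.2 : ℝ) := by
              rw [sum_const, nsmul_eq_mul]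
              have h3 : ((F.filter (fun x => x.2 = x₀.2)).card : ℝ) = (db F x₀.2 : ℝ) := rfl
              rw [h3]
              simp only [r]
              rw [Nat.cast_sub (hm x₀.2)]
              field_simp
      have h3 : ∑ x ∈ S', y x ≤ ∑ a ∈ S'.image Prod.fst, (⌈f a⌉₊ : ℝ) := by
        rw [← sum_fiberwise_of_maps_to (g := Prod.fst) (t := S'.image Prod.fst)
          (fun x hx => mem_image_of_mem _ hx)]
        apply sum_le_sum
        intro a _
        calc ∑ x ∈ S'.filter (fun x => x.1 = a), y x ≤ ∑ x ∈ F.filter (fun x => x.1 = a), y x := by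
              apply sum_le_sum_of_subset_of_nonneg (filter_subset_filter _ hS'F)
              intro x _ _
              exact hy0 x
          _ ≤ (⌈f a⌉₊ : ℝ) := Nat.le_ceil _
      push_cast
      linarith
    exact_mod_cast key
  obtain ⟨g, hg, hgt⟩ := (Finset.all_card_le_biUnion_card_iff_exists_injective t).1 hall
  -- `g` restricted to a fibre
  have hginl : ∀ (z : ι) (s : Σ _ : β, ℕ), g z = Sum.inl s → s.1 = z.1.2 ∧ s.2 < r s.1 := by
    intro z s hs
    have := hgt z
    rw [hs] at this
    simp only [t, inl_mem_disjSum, mem_sigma, mem_singleton, mem_range] at this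
    exact this
  have hginr : ∀ (z : ι) (s : Σ _ : α, ℕ), g z = Sum.inr s → s.1 = z.1.1 ∧ s.2 < ⌈f s.1⌉₊ := by
    intro z s hs
    have := hgt z
    rw [hs] at this
    simp only [t, inr_mem_disjSum, mem_sigma, mem_singleton, mem_range] at this
    exact this
  let K : Finset (α × β) := F.filter (fun x => ∃ h : x ∈ F, ∃ s, g ⟨x, h⟩ = Sum.inr s)
  have hKF : K ⊆ F := filter_subset _ _
  have hKa : ∀ a, (K.filter (fun x => x.1 = a)).card ≤ ⌈f a⌉₊ := by
    intro a
    have hch : ∀ x : α × β, ∃ i : ℕ, x ∈ K → ∃ h : x ∈ F, ∃ s, g ⟨x, h⟩ = Sum.inr s ∧ s.2 = i := by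
      intro x
      by_cases hx : x ∈ K
      · obtain ⟨h, s, hs⟩ := (mem_filter.1 hx).2
        exact ⟨s.2, fun _ => ⟨h, s, hs, rfl⟩⟩
      · exact ⟨0, fun h => absurd h hx⟩
    choose i hi using hch
    have h1 : (K.filter (fun x => x.1 = a)).image i ⊆ range ⌈f a⌉₊ := by
      intro j hj
      rw [mem_image] at hj
      obtain ⟨x, hx, rfl⟩ := hj
      rw [mem_filter] at hx
      obtain ⟨h, s, hs, hsi⟩ := hi x hx.1
      have := hginr _ s hs
      simp only [hx.2] at this
      rw [mem_range, ← hsi, ← this.1]
      exact this.2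
    have h2 := card_le_card h1
    rw [card_range, card_image_of_injOn] at h2
    · exact h2
    · intro x hx x' hx' hxx
      rw [mem_coe, mem_filter] at hx hx'
      obtain ⟨h, s, hs, hsi⟩ := hi x hx.1
      obtain ⟨h', s', hs', hsi'⟩ := hi x' hx'.1
      have e1 := (hginr _ s hs).1
      have e2 := (hginr _ s' hs').1
      simp only at e1 e2
      have : s = s' := by
        obtain ⟨s1, s2⟩ := s
        obtain ⟨s1', s2'⟩ := s'
        simp only at e1 e2 hsi hsi'
        subst e1
        subst e2
        have e3 : x.1 = x'.1 := hx.2.trans hx'.2.symm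
        have e4 : s2 = s2' := by rw [hsi, hsi']; exact hxx
        rw [e3, e4]
      rw [this, ← hs'] at hs
      exact congrArg Subtype.val (hg hs)
  have hKb : ∀ b, m b ≤ db K b := by
    intro b
    -- removed edges at `b`
    have hch : ∀ x : α × β, ∃ i : ℕ, x ∈ F \ K →
        ∃ h : x ∈ F, ∃ s, g ⟨x, h⟩ = Sum.inl s ∧ s.2 = i := by
      intro x
      by_cases hx : x ∈ F \ K
      · rw [mem_sdiff] at hx
        rcases hgx : g ⟨x, hx.1⟩ with s | s
        · exact ⟨s.2, fun _ => ⟨hx.1, s, hgx, rfl⟩⟩
        · exfalso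
          apply hx.2
          rw [mem_filter]
          exact ⟨hx.1, hx.1, s, hgx⟩
      · exact ⟨0, fun h => absurd h hx⟩
    choose i hi using hch
    have h1 : ((F \ K).filter (fun x => x.2 = b)).image i ⊆ range (r b) := by
      intro j hj
      rw [mem_image] at hj
      obtain ⟨x, hx, rfl⟩ := hj
      rw [mem_filter] at hx
      obtain ⟨h, s, hs, hsi⟩ := hi x hx.1
      have := hginl _ s hs
      simp only [hx.2] at this
      rw [mem_range, ← hsi, ← this.1]
      exact this.2
    have h2 := card_le_card h1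
    rw [card_range, card_image_of_injOn] at h2
    · have h3 : db F b = db K b + ((F \ K).filter (fun x => x.2 = b)).card := by
        unfold db
        rw [← card_union_of_disjoint]
        · congr 1
          ext x
          simp only [mem_union, mem_filter (s := F), mem_filter (s := F \ K),
            mem_filter (p := fun x => x.2 = b) (s := K), mem_sdiff]
          constructor
          · rintro ⟨h1, h2⟩
            by_cases hx : x ∈ K
            · exact Or.inl ⟨hx, h2⟩
            · exact Or.inr ⟨⟨h1, hx⟩, h2⟩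
          · rintro (⟨h1, h2⟩ | ⟨⟨h1, _⟩, h2⟩)
            · exact ⟨hKF h1, h2⟩
            · exact ⟨h1, h2⟩
        · rw [Finset.disjoint_left]
          intro x hx hx'
          rw [mem_filter] at hx hx'
          rw [mem_sdiff] at hx'
          exact hx'.1.2 hx.1
      have h4 : r b = db F b - m b := rfl
      have h5 := hm b
      omega
    · intro x hx x' hx' hxx
      rw [mem_coe, mem_filter] at hx hx'
      obtain ⟨h, s, hs, hsi⟩ := hi x hx.1
      obtain ⟨h', s', hs', hsi'⟩ := hi x' hx'.1
      have e1 := (hginl _ s hs).1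
      have e2 := (hginl _ s' hs').1
      simp only at e1 e2
      have : s = s' := by
        obtain ⟨s1, s2⟩ := s
        obtain ⟨s1', s2'⟩ := s'
        simp only at e1 e2 hsi hsi'
        subst e1
        subst e2
        have e3 : x.2 = x'.2 := hx.2.trans hx'.2.symm
        have e4 : s2 = s2' := by rw [hsi, hsi']; exact hxx
        rw [e3, e4]
      rw [this, ← hs'] at hs
      exact congrArg Subtype.val (hg hs)
  -- trim
  obtain ⟨idx, hi1, hi2, hi3⟩ := exists_idx K (fun x => x.2)
  refine ⟨K.filter (fun x => idx x < m x.2), (filter_subset _ _).trans hKF, ?_, ?_⟩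
  · intro b
    have h1 : ((K.filter (fun x => idx x < m x.2)).filter (fun x => x.2 = b)).image idx =
        range (m b) := by
      ext i
      rw [mem_image, mem_range]
      constructor
      · rintro ⟨x, hx, rfl⟩
        rw [mem_filter, mem_filter] at hx
        rw [← hx.2]
        exact hx.1.2
      · intro hi
        obtain ⟨x, hx, hxk, hxi⟩ := hi3 b i (lt_of_lt_of_le hi (hKb b))
        refine ⟨x, ?_, hxi⟩
        rw [mem_filter, mem_filter]
        refine ⟨⟨hx, ?_⟩, hxk⟩
        rw [hxk, hxi]
        exact hi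
    have h2 := congrArg Finset.card h1
    rw [card_range, card_image_of_injOn] at h2
    · exact h2
    · intro x hx x' hx' hxx
      rw [mem_coe, mem_filter, mem_filter] at hx hx'
      exact hi2 x hx.1.1 x' hx'.1.1 (hx.2.trans hx'.2.symm) hxx
  · intro a
    have h1 : ((K.filter (fun x => idx x < m x.2)).filter (fun x => x.1 = a)).card ≤
        (K.filter (fun x => x.1 = a)).card :=
      card_le_card (filter_subset_filter _ (filter_subset _ _))
    have h2 := h1.trans (hKa a)
    have h3 : ((⌈f a⌉₊ : ℕ) : ℝ) < f a + 1 := Nat.ceil_lt_add_one (hf0 a)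
    have h4 : (((K.filter (fun x => idx x < m x.2)).filter (fun x => x.1 = a)).card : ℝ) ≤
        (⌈f a⌉₊ : ℝ) := by exact_mod_cast h2
    exact lt_of_le_of_lt h4 h3

end Pool.Agent.Helper18.LE
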