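import Pool.Agent.Helper18.LE.Galvin
import Pool.Agent.Helper18.LE.Rounding

set_option autoImplicit false
set_option linter.unusedSectionVars false

/-!
# One-sided lists

`lemmaX`: if `∑_{b ∈ N(a)} 1 / d(b) ≤ 1/2` for every vertex `a` on one side of a bipartite graph,
then the edges can be coloured from any lists with `|L(ab)| ≥ d(b)`.
-/

namespace Pool.Agent.Helper18.LE

open Finset

variable {α β : Type*} [DecidableEq α] [DecidableEq β]

/-- `X` is a good level-`j` subset of `E`. -/
def Inv (E : Finset (α × β)) (j : ℕ) (X : Finset (α × β)) : Prop :=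
  (∀ b, db X b = min (2 ^ j) (db E b)) ∧
  (∀ a, ∑ x ∈ X.filter (fun x => x.1 = a), 1 / ((min (2 ^ j) (db E x.2) : ℕ) : ℝ) <
    ∑ x ∈ E.filter (fun x => x.1 = a), 1 / (db E x.2 : ℝ) + 2 / 2 ^ j) ∧
  ∀ a, 2 * (X.filter (fun x => x.1 = a)).card ≤ 2 ^ j + 2

/-- All degrees are at least two. -/
theorem two_le_db {E : Finset (α × β)}
    (hE : ∀ a, ∑ x ∈ E.filter (fun x => x.1 = a), 1 / (db E x.2 : ℝ) ≤ 1 / 2)
    {x : α × β} (hx : x ∈ E) : 2 ≤ db E x.2 := by
  by_contra hcon
  have h1 : db E x.2 = 1 := by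
    have := db_pos hx
    omega
  have h2 : 1 / (db E x.2 : ℝ) ≤ ∑ z ∈ E.filter (fun z => z.1 = x.1), 1 / (db E z.2 : ℝ) := by
    apply single_le_sum (f := fun z : α × β => 1 / (db E z.2 : ℝ))
    · intro z _
      positivity
    · rw [mem_filter]
      exact ⟨hx, rfl⟩
  have h3 := hE x.1
  have h4 : 1 / (db E x.2 : ℝ) = 1 := by
    rw [h1]
    norm_num
  linarith

/-- One step down. -/
theorem inv_step {E X : Finset (α × β)} {j : ℕ} (hXE : X ⊆ E)
    (hE : ∀ a, ∑ x ∈ E.filter (fun x => x.1 = a), 1 / (db E x.2 : ℝ) ≤ 1 / 2)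
    (hX : Inv E (j + 1) X) : ∃ Y ⊆ X, Inv E j Y := by
  classical
  obtain ⟨hX1, hX2, hX3⟩ := hX
  have h2j : 2 ^ (j + 1) = 2 * 2 ^ j := by rw [pow_succ]; ring
  obtain ⟨Y, hYX, hYb, hYa⟩ := rounding X (fun b => min (2 ^ j) (db E b)) (by
    intro b
    rw [hX1 b]
    omega)
  have h2jr : (2 : ℝ) ^ (j + 1) = 2 * 2 ^ j := by rw [pow_succ]; ring
  have hpow : (0 : ℝ) < 2 ^ j := by positivity
  -- termwise facts
  have hterm : ∀ x ∈ E, (0 : ℝ) < ((min (2 ^ j) (db E x.2) : ℕ) : ℝ) ∧
      (0 : ℝ) < ((min (2 ^ (j + 1)) (db E x.2) : ℕ) : ℝ) ∧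
      (1 : ℝ) / 2 ^ j ≤ 1 / ((min (2 ^ j) (db E x.2) : ℕ) : ℝ) ∧
      ((min (2 ^ j) (db E x.2) : ℕ) : ℝ) / ((min (2 ^ (j + 1)) (db E x.2) : ℕ) : ℝ) / 2 ^ j +
        (1 / ((min (2 ^ j) (db E x.2) : ℕ) : ℝ) - 1 / 2 ^ j) =
        1 / ((min (2 ^ (j + 1)) (db E x.2) : ℕ) : ℝ) ∧
      ((min (2 ^ j) (db E x.2) : ℕ) : ℝ) ≤ 2 ^ j := by
    intro x hx
    have hd := db_pos hx
    have hd' : (0 : ℝ) < db E x.2 := by exact_mod_cast hd
    have hp : 0 < 2 ^ j := by positivity
    have h1 : (0 : ℝ) < ((min (2 ^ j) (db E x.2) : ℕ) : ℝ) := by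
      exact_mod_cast lt_min hp hd
    have h2 : (0 : ℝ) < ((min (2 ^ (j + 1)) (db E x.2) : ℕ) : ℝ) := by
      exact_mod_cast lt_min (by positivity) hd
    have h3 : ((min (2 ^ j) (db E x.2) : ℕ) : ℝ) ≤ 2 ^ j := by
      have : min (2 ^ j) (db E x.2) ≤ 2 ^ j := min_le_left _ _
      exact_mod_cast this
    refine ⟨h1, h2, one_div_le_one_div_of_le h1 h3, ?_, h3⟩
    rcases Nat.le_total (db E x.2) (2 ^ j) with h | h
    · have e1 : min (2 ^ j) (db E x.2) = db E x.2 := min_eq_right h
      have e2 : min (2 ^ (j + 1)) (db E x.2) = db E x.2 := min_eq_right (by omega)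
      rw [e1, e2]
      field_simp
      ring
    · have e1 : min (2 ^ j) (db E x.2) = 2 ^ j := min_eq_left h
      rw [e1]
      push_cast
      field_simp
      ring
  have hXa : ∀ a, ∑ x ∈ X.filter (fun x => x.1 = a),
      (((fun b => min (2 ^ j) (db E b)) x.2 : ℕ) : ℝ) / (db X x.2 : ℝ) =
      ∑ x ∈ X.filter (fun x => x.1 = a),
        ((min (2 ^ j) (db E x.2) : ℕ) : ℝ) / ((min (2 ^ (j + 1)) (db E x.2) : ℕ) : ℝ) := by
    intro a
    apply sum_congr rfl
    intro x _
    rw [hX1 x.2]
  refine ⟨Y, hYX, hYb, ?_, ?_⟩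
  · intro a
    have hN := hYa a
    rw [hXa a] at hN
    have hL := hX2 a
    have h1 : ∑ x ∈ Y.filter (fun x => x.1 = a), 1 / ((min (2 ^ j) (db E x.2) : ℕ) : ℝ) =
        ((Y.filter (fun x => x.1 = a)).card : ℝ) / 2 ^ j +
        ∑ x ∈ Y.filter (fun x => x.1 = a),
          (1 / ((min (2 ^ j) (db E x.2) : ℕ) : ℝ) - 1 / 2 ^ j) := by
      rw [sum_sub_distrib, sum_const, nsmul_eq_mul]
      ring
    have h2 : ∑ x ∈ Y.filter (fun x => x.1 = a),
          (1 / ((min (2 ^ j) (db E x.2) : ℕ) : ℝ) - 1 / 2 ^ j) ≤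
        ∑ x ∈ X.filter (fun x => x.1 = a),
          (1 / ((min (2 ^ j) (db E x.2) : ℕ) : ℝ) - 1 / 2 ^ j) := by
      apply sum_le_sum_of_subset_of_nonneg (filter_subset_filter _ hYX)
      intro x hx _
      have := (hterm x (hXE (mem_filter.1 hx).1)).2.2.1
      linarith
    have h3 : (∑ x ∈ X.filter (fun x => x.1 = a),
        ((min (2 ^ j) (db E x.2) : ℕ) : ℝ) / ((min (2 ^ (j + 1)) (db E x.2) : ℕ) : ℝ)) / 2 ^ j +
        ∑ x ∈ X.filter (fun x => x.1 = a),
          (1 / ((min (2 ^ j) (db E x.2) : ℕ) : ℝ) - 1 / 2 ^ j) =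
        ∑ x ∈ X.filter (fun x => x.1 = a), 1 / ((min (2 ^ (j + 1)) (db E x.2) : ℕ) : ℝ) := by
      rw [sum_div, ← sum_add_distrib]
      apply sum_congr rfl
      intro x hx
      exact (hterm x (hXE (mem_filter.1 hx).1)).2.2.2.1
    have h4 : ((Y.filter (fun x => x.1 = a)).card : ℝ) / 2 ^ j <
        (∑ x ∈ X.filter (fun x => x.1 = a),
        ((min (2 ^ j) (db E x.2) : ℕ) : ℝ) / ((min (2 ^ (j + 1)) (db E x.2) : ℕ) : ℝ)) / 2 ^ j +
        1 / 2 ^ j := by
      rw [← add_div]
      exact div_lt_div_of_pos_right hN hpow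
    have h5 : (2 : ℝ) / 2 ^ (j + 1) = 1 / 2 ^ j := by
      rw [h2jr]
      field_simp
    have h6 : (2 : ℝ) / 2 ^ j = 1 / 2 ^ j + 1 / 2 ^ j := by ring
    rw [h1, h6]
    rw [h5] at hL
    linarith
  · intro a
    have hN := hYa a
    rw [hXa a] at hN
    rcases Nat.eq_zero_or_pos j with h0 | h0
    · subst h0
      have h1 := hX3 a
      have h2 : ∑ x ∈ X.filter (fun x => x.1 = a),
          ((min (2 ^ 0) (db E x.2) : ℕ) : ℝ) / ((min (2 ^ (0 + 1)) (db E x.2) : ℕ) : ℝ) =
          ((X.filter (fun x => x.1 = a)).card : ℝ) / 2 := by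
        rw [← mul_one_div, ← nsmul_eq_mul, ← sum_const]
        apply sum_congr rfl
        intro x hx
        have hd := two_le_db hE (hXE (mem_filter.1 hx).1)
        have e1 : min (2 ^ 0) (db E x.2) = 1 := by
          rw [min_eq_left] <;> simp
          omega
        have e2 : min (2 ^ (0 + 1)) (db E x.2) = 2 := by
          rw [min_eq_left] <;> simp
          omega
        rw [e1, e2]
        norm_num
      rw [h2] at hN
      have h3 : ((X.filter (fun x => x.1 = a)).card : ℝ) ≤ 2 := by
        have : (X.filter (fun x => x.1 = a)).card ≤ 2 := by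
          norm_num at h1
          omega
        exact_mod_cast this
      have h4 : ((Y.filter (fun x => x.1 = a)).card : ℝ) < 2 := by linarith
      have h5 : (Y.filter (fun x => x.1 = a)).card < 2 := by exact_mod_cast h4
      norm_num
      omega
    · have h1 : ∑ x ∈ X.filter (fun x => x.1 = a),
          ((min (2 ^ j) (db E x.2) : ℕ) : ℝ) / ((min (2 ^ (j + 1)) (db E x.2) : ℕ) : ℝ) ≤
          2 ^ j * ∑ x ∈ X.filter (fun x => x.1 = a),
            1 / ((min (2 ^ (j + 1)) (db E x.2) : ℕ) : ℝ) := by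
        rw [mul_sum]
        apply sum_le_sum
        intro x hx
        obtain ⟨_, t2, _, _, t5⟩ := hterm x (hXE (mem_filter.1 hx).1)
        rw [mul_one_div]
        exact div_le_div_of_nonneg_right t5 t2.le
      have h2 := hX2 a
      have h3 := hE a
      have h4 : ∑ x ∈ X.filter (fun x => x.1 = a),
            1 / ((min (2 ^ (j + 1)) (db E x.2) : ℕ) : ℝ) < 1 / 2 + 1 / 2 ^ j := by
        have h5 : (2 : ℝ) / 2 ^ (j + 1) = 1 / 2 ^ j := by
          rw [h2jr]
          field_simp
        rw [h5] at h2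
        linarith
      have h5 : (2 : ℝ) ^ j * ∑ x ∈ X.filter (fun x => x.1 = a),
            1 / ((min (2 ^ (j + 1)) (db E x.2) : ℕ) : ℝ) < 2 ^ j * (1 / 2 + 1 / 2 ^ j) :=
        mul_lt_mul_of_pos_left h4 hpow
      have h6 : (2 : ℝ) ^ j * (1 / 2 + 1 / 2 ^ j) = 2 ^ j / 2 + 1 := by
        field_simp
      have h7 : 2 * ((Y.filter (fun x => x.1 = a)).card : ℝ) < 2 ^ j + 4 := by linarith
      have h8 : 2 * (Y.filter (fun x => x.1 = a)).card < 2 ^ j + 4 := by exact_mod_cast h7
      obtain ⟨i, rfl⟩ : ∃ i, j = i + 1 := ⟨j - 1, by omega⟩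
      rw [pow_succ] at h8 ⊢
      omega

/-- The chain. -/
theorem exists_levels (E : Finset (α × β))
    (hE : ∀ a, ∑ x ∈ E.filter (fun x => x.1 = a), 1 / (db E x.2 : ℝ) ≤ 1 / 2) :
    ∃ l : α × β → ℕ, ∀ i, Inv E i (E.filter (fun x => l x ≤ i)) := by
  classical
  obtain ⟨J, hJ⟩ : ∃ J, ∀ b, db E b ≤ 2 ^ J := by
    refine ⟨E.card, fun b => ?_⟩
    have h1 : db E b ≤ E.card := card_le_card (filter_subset _ _)
    exact h1.trans Nat.lt_two_pow_self.le
  have main : ∀ m ≤ J, ∃ l : α × β → ℕ, (∀ x, J - m ≤ l x) ∧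
      ∀ i, J - m ≤ i → Inv E i (E.filter (fun x => l x ≤ i)) := by
    intro m
    induction m with
    | zero =>
      intro _
      refine ⟨fun _ => J, fun _ => Nat.sub_le _ _, fun i hi => ?_⟩
      simp only [Nat.sub_zero] at hi
      have hE' : E.filter (fun _ => J ≤ i) = E := by
        rw [filter_true_of_mem]
        intro x _
        exact hi
      have hi2 : ∀ b, db E b ≤ 2 ^ i := fun b =>
        (hJ b).trans (Nat.pow_le_pow_right (by norm_num) hi)
      simp only [hE']
      refine ⟨fun b => (min_eq_right (hi2 b)).symm, ?_, ?_⟩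
      · intro a
        have : (0 : ℝ) < 2 / 2 ^ i := by positivity
        have h1 : ∑ x ∈ E.filter (fun x => x.1 = a), 1 / ((min (2 ^ i) (db E x.2) : ℕ) : ℝ) =
            ∑ x ∈ E.filter (fun x => x.1 = a), 1 / (db E x.2 : ℝ) := by
          apply sum_congr rfl
          intro x _
          rw [min_eq_right (hi2 x.2)]
        rw [h1]
        linarith
      · intro a
        have h1 : ((E.filter (fun x => x.1 = a)).card : ℝ) ≤
            2 ^ i * ∑ x ∈ E.filter (fun x => x.1 = a), 1 / (db E x.2 : ℝ) := by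
          rw [card_eq_sum_ones, mul_sum]
          push_cast
          apply sum_le_sum
          intro x hx
          have hd : (0 : ℝ) < db E x.2 := by exact_mod_cast db_pos (mem_filter.1 hx).1
          have hd2 : (db E x.2 : ℝ) ≤ 2 ^ i := by exact_mod_cast hi2 x.2
          rw [mul_one_div, le_div_iff₀ hd]
          linarith
        have h2 := hE a
        have h3 : (2 : ℝ) ^ i * ∑ x ∈ E.filter (fun x => x.1 = a), 1 / (db E x.2 : ℝ) ≤
            2 ^ i * (1 / 2) := mul_le_mul_of_nonneg_left h2 (by positivity)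
        have h4 : 2 * ((E.filter (fun x => x.1 = a)).card : ℝ) ≤ 2 ^ i := by linarith
        have h5 : 2 * (E.filter (fun x => x.1 = a)).card ≤ 2 ^ i := by exact_mod_cast h4
        omega
    | succ m ih =>
      intro hm
      obtain ⟨l, hl, hl'⟩ := ih (by omega)
      have hj : J - m = (J - (m + 1)) + 1 := by omega
      obtain ⟨Y, hYX, hY⟩ := inv_step (j := J - (m + 1)) (filter_subset (fun x => l x ≤ J - m) E)
        hE (by rw [← hj]; exact hl' _ le_rfl)
      refine ⟨fun x => if x ∈ Y then J - (m + 1) else l x, ?_, ?_⟩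
      · intro x
        have := hl x
        by_cases hx : x ∈ Y
        · simp only [hx, if_true]
          exact le_rfl
        · simp only [hx, if_false]
          omega
      · intro i hi
        rcases Nat.lt_or_ge i (J - m) with h | h
        · have hi' : i = J - (m + 1) := by omega
          subst hi'
          have : E.filter (fun x => (if x ∈ Y then J - (m + 1) else l x) ≤ J - (m + 1)) = Y := by
            ext x
            rw [mem_filter]
            constructor
            · rintro ⟨h1, h2⟩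
              by_contra hx
              rw [if_neg hx] at h2
              have := hl x
              omega
            · intro hx
              refine ⟨(filter_subset _ _) (hYX hx), ?_⟩
              rw [if_pos hx]
          simp only [this]
          exact hY
        · have : E.filter (fun x => (if x ∈ Y then J - (m + 1) else l x) ≤ i) =
              E.filter (fun x => l x ≤ i) := by
            ext x
            rw [mem_filter, mem_filter]
            refine and_congr_right (fun _ => ?_)
            by_cases hx : x ∈ Y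
            · rw [if_pos hx]
              have h1 := hYX hx
              rw [mem_filter] at h1
              constructor
              · intro _
                exact h1.2.trans h
              · intro _
                exact hi
            · rw [if_neg hx]
          simp only [this]
          exact hl' i h
  obtain ⟨l, _, hl⟩ := main J le_rfl
  exact ⟨l, fun i => hl i (by omega)⟩

/-- One-sided lists: `|L(ab)| ≥ d(b)` suffices when `∑_{b ∈ N(a)} 1 / d(b) ≤ 1 / 2` for all `a`. -/
theorem lemmaX (E : Finset (α × β))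
    (hE : ∀ a, ∑ x ∈ E.filter (fun x => x.1 = a), 1 / (db E x.2 : ℝ) ≤ 1 / 2)
    (L : α × β → Finset ℕ) (hL : ∀ e ∈ E, db E e.2 ≤ (L e).card) :
    ∃ c : α × β → ℕ, (∀ e ∈ E, c e ∈ L e) ∧
      ∀ e ∈ E, ∀ e' ∈ E, e ≠ e' → (e.1 = e'.1 ∨ e.2 = e'.2) → c e ≠ c e' := by
  classical
  obtain ⟨l, hl⟩ := exists_levels E hE
  obtain ⟨τ, _, hτ, _⟩ := exists_idx E (fun _ => ())
  have hτ' : ∀ e ∈ E, ∀ e' ∈ E, τ e = τ e' → e = e' := fun e he e' he' h => hτ e he e' he' rfl h
  let pa : α × β → ℕ ×ₗ ℕ := fun e => toLex (l e, τ e)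
  let pb : α × β → ℕᵒᵈ ×ₗ ℕ := fun e => toLex (OrderDual.toDual (l e), τ e)
  have hpa : ∀ e e' : α × β, pa e' < pa e ↔ l e' < l e ∨ (l e' = l e ∧ τ e' < τ e) := by
    intro e e'
    simp only [pa, Prod.Lex.toLex_lt_toLex]
  have hpb : ∀ e e' : α × β, pb e' < pb e ↔ l e < l e' ∨ (l e' = l e ∧ τ e' < τ e) := by
    intro e e'
    simp only [pb, Prod.Lex.toLex_lt_toLex, OrderDual.toDual_lt_toDual]
    simp
  refine galvin pa pb E.card E rfl ?_ ?_ L ?_
  · intro e he e' he' _ h
    apply hτ' e he e' he'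
    have := congrArg (fun z => (ofLex z).2) h
    simpa [pa] using this
  · intro e he e' he' _ h
    apply hτ' e he e' he'
    have := congrArg (fun z => (ofLex z).2) h
    simpa [pb] using this
  · intro e he
    refine lt_of_lt_of_le ?_ (hL e he)
    -- rank at `a`
    have ha : (E.filter (fun e' => e'.1 = e.1 ∧ pa e' < pa e)).card + 1 ≤
        ((E.filter (fun x => l x ≤ l e)).filter (fun x => x.1 = e.1)).card := by
      rw [Nat.add_one_le_iff]
      apply card_lt_card
      refine ⟨?_, ?_⟩
      · intro x hx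
        rw [mem_filter, hpa] at hx
        rw [mem_filter, mem_filter]
        refine ⟨⟨hx.1, ?_⟩, hx.2.1⟩
        omega
      · intro hcon
        have : e ∈ (E.filter (fun e' => e'.1 = e.1 ∧ pa e' < pa e)) :=
          hcon (by rw [mem_filter, mem_filter]; exact ⟨⟨he, le_rfl⟩, rfl⟩)
        rw [mem_filter] at this
        exact lt_irrefl _ this.2.2
    -- bound at `a`
    have hbd := (hl (l e)).2.2 e.1
    rcases Nat.eq_zero_or_pos (l e) with h0 | h0
    · -- level 0
      have hb : (E.filter (fun e' => e'.2 = e.2 ∧ pb e' < pb e)).card + 1 ≤ db E e.2 := by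
        rw [Nat.add_one_le_iff]
        apply card_lt_card
        refine ⟨?_, ?_⟩
        · intro x hx
          rw [mem_filter] at hx
          rw [mem_filter]
          exact ⟨hx.1, hx.2.1⟩
        · intro hcon
          have : e ∈ (E.filter (fun e' => e'.2 = e.2 ∧ pb e' < pb e)) :=
            hcon (by rw [mem_filter]; exact ⟨he, rfl⟩)
          rw [mem_filter] at this
          exact lt_irrefl _ this.2.2
      have h4 : 2 ^ l e = 1 := by rw [h0, pow_zero]
      omega
    · -- level `≥ 1`
      obtain ⟨j, hj⟩ : ∃ j, l e = j + 1 := ⟨l e - 1, by omega⟩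
      have hb1 := (hl j).1 e.2
      have hb2 : db (E.filter (fun x => l x ≤ j)) e.2 < db E e.2 := by
        apply card_lt_card
        refine ⟨filter_subset_filter _ (filter_subset _ _), ?_⟩
        intro hcon
        have : e ∈ ((E.filter (fun x => l x ≤ j)).filter (fun x => x.2 = e.2)) :=
          hcon (by rw [mem_filter]; exact ⟨he, rfl⟩)
        rw [mem_filter, mem_filter] at this
        omega
      have hb3 : db (E.filter (fun x => l x ≤ j)) e.2 = 2 ^ j := by omega
      have hb : (E.filter (fun e' => e'.2 = e.2 ∧ pb e' < pb e)).card + 1 + 2 ^ j ≤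
          db E e.2 := by
        rw [← hb3]
        have h1 : (E.filter (fun e' => e'.2 = e.2 ∧ pb e' < pb e)).card + 1 ≤
            ((E.filter (fun x => ¬ l x ≤ j)).filter (fun x => x.2 = e.2)).card := by
          rw [Nat.add_one_le_iff]
          apply card_lt_card
          refine ⟨?_, ?_⟩
          · intro x hx
            rw [mem_filter, hpb] at hx
            rw [mem_filter, mem_filter]
            refine ⟨⟨hx.1, ?_⟩, hx.2.1⟩
            omega
          · intro hcon
            have : e ∈ (E.filter (fun e' => e'.2 = e.2 ∧ pb e' < pb e)) :=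
              hcon (by rw [mem_filter, mem_filter]; exact ⟨⟨he, by omega⟩, rfl⟩)
            rw [mem_filter] at this
            exact lt_irrefl _ this.2.2
        have h2 : db E e.2 = ((E.filter (fun x => l x ≤ j)).filter (fun x => x.2 = e.2)).card +
            ((E.filter (fun x => ¬ l x ≤ j)).filter (fun x => x.2 = e.2)).card := by
          have h3 := card_filter_add_card_filter_not (s := E.filter (fun x => x.2 = e.2))
            (fun x => l x ≤ j)
          rw [filter_filter, filter_filter] at h3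
          rw [filter_filter, filter_filter]
          unfold db
          rw [← h3]
          congr 2
          · apply filter_congr
            intro x _
            tauto
          · apply filter_congr
            intro x _
            tauto
        unfold db at h2 ⊢
        omega
      rw [hj, pow_succ] at hbd
      rw [hj] at ha
      omega

end Pool.Agent.Helper18.LE
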