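import Pool.Agent.Helper18.LE.Main

set_option autoImplicit false
set_option linter.unusedSectionVars false

/-!
# From edge sets to graphs
-/

namespace Pool.Agent.Helper18.LE

open Finset

variable {V : Type*} [DecidableEq V] [Fintype V]

/-- The colouring statement for `G` from `Col` of its edge set. -/
theorem col_graph (G : SimpleGraph V) [DecidableRel G.Adj] {k : ℕ}
    (h : ∀ L : Sym2 V → Finset ℕ, (∀ e ∈ G.edgeFinset, k ≤ (L e).card) → Col G.edgeFinset L)
    (L : G.edgeSet → Finset ℕ) (hL : ∀ e, k ≤ (L e).card) :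
    ∃ f : G.edgeSet → ℕ, (∀ e, f e ∈ L e) ∧ ∀ e e', G.lineGraph.Adj e e' → f e ≠ f e' := by
  classical
  obtain ⟨c, hc1, hc2⟩ := h (fun e => if he : e ∈ G.edgeSet then L ⟨e, he⟩ else range k) (by
    intro e he
    rw [SimpleGraph.mem_edgeFinset] at he
    rw [dif_pos he]
    exact hL _)
  refine ⟨fun e => c e.1, ?_, ?_⟩
  · intro e
    have h1 := hc1 e.1 (by rw [SimpleGraph.mem_edgeFinset]; exact e.2)
    simp only [e.2, dif_pos] at h1
    exact h1
  · intro e e' hadj
    rw [SimpleGraph.lineGraph_adj_iff_exists] at hadj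
    refine hc2 e.1 (by rw [SimpleGraph.mem_edgeFinset]; exact e.2) e'.1
      (by rw [SimpleGraph.mem_edgeFinset]; exact e'.2) (fun hh => hadj.1 (Subtype.ext hh)) hadj.2

/-- A colouring of the line graph needs at least `degree v` colours. -/
theorem degree_le_of_colorable (G : SimpleGraph V) [DecidableRel G.Adj] {k : ℕ}
    (h : G.lineGraph.Colorable k) (v : V) : G.degree v ≤ k := by
  classical
  obtain ⟨C⟩ := h
  rw [← SimpleGraph.card_neighborFinset_eq_degree]
  have hmem : ∀ w : {w // w ∈ G.neighborFinset v}, s(v, w.1) ∈ G.edgeSet := by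
    intro w
    have := w.2
    rw [SimpleGraph.mem_neighborFinset] at this
    exact this
  let f : {w // w ∈ G.neighborFinset v} → Fin k := fun w => C ⟨s(v, w.1), hmem w⟩
  have hf : Function.Injective f := by
    intro w w' hww
    by_contra hne
    have hadj : G.lineGraph.Adj ⟨s(v, w.1), hmem w⟩ ⟨s(v, w'.1), hmem w'⟩ := by
      rw [SimpleGraph.lineGraph_adj_iff_exists]
      refine ⟨?_, v, Sym2.mem_mk_left _ _, Sym2.mem_mk_left _ _⟩
      intro h
      have h1 := congrArg Subtype.val h
      simp only at h1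
      exact hne (Subtype.ext (Sym2.congr_right.1 h1))
    exact C.valid hadj hww
  have := Fintype.card_le_of_injective f hf
  rw [Fintype.card_coe, Fintype.card_fin] at this
  exact this

/-- General form: lists of size `k ≥ Δ(G)`. -/
theorem choosable (G : SimpleGraph V) [DecidableRel G.Adj] (k : ℕ) (hk : G.maxDegree ≤ k)
    (d : ℝ) (hd : (d - 1) * (2 * hr k + 2) = k)
    (hG : ∀ S : Finset V, S.Nonempty →
      ((∑ v ∈ S, (G.neighborFinset v ∩ S).card : ℕ) : ℝ) < d * S.card)
    (L : G.edgeSet → Finset ℕ) (hL : ∀ e, k ≤ (L e).card) :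
    ∃ f : G.edgeSet → ℕ, (∀ e, f e ∈ L e) ∧ ∀ e e', G.lineGraph.Adj e e' → f e ≠ f e' := by
  classical
  refine col_graph G ?_ L hL
  intro L' hL'
  refine main_col k d hd _ G.edgeFinset rfl ?_ ?_ ?_ L' hL'
  · intro e he
    rw [SimpleGraph.mem_edgeFinset] at he
    exact G.not_isDiag_of_mem_edgeSet he
  · intro v
    refine le_trans (le_of_eq ?_) ((G.degree_le_maxDegree v).trans hk)
    rw [← SimpleGraph.card_incidenceFinset_eq_degree]
    unfold dg
    congr 1
    ext e
    simp [SimpleGraph.incidenceSet]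
  · intro F' hF' hne
    have hdiag : ∀ e ∈ F', ¬ e.IsDiag := by
      intro e he
      have := hF' he
      rw [SimpleGraph.mem_edgeFinset] at this
      exact G.not_isDiag_of_mem_edgeSet this
    have hsne : (supp F').Nonempty := by
      obtain ⟨e, he⟩ := hne
      induction e using Sym2.ind with
      | _ u v =>
        refine ⟨u, ?_⟩
        unfold supp
        rw [mem_filter]
        exact ⟨mem_univ _, card_pos.2 ⟨s(u, v), by
          rw [mem_filter]; exact ⟨he, Sym2.mem_mk_left u v⟩⟩⟩
    refine lt_of_le_of_lt ?_ (hG (supp F') hsne)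
    have h1 := sum_dg F' hdiag
    have h2 : ∑ v, dg F' v = ∑ v ∈ supp F', dg F' v := by
      unfold supp
      rw [sum_filter]
      apply sum_congr rfl
      intro v _
      split_ifs with h
      · rfl
      · omega
    have h3 : ∀ v ∈ supp F', dg F' v ≤ (G.neighborFinset v ∩ supp F').card := by
      intro v _
      unfold dg
      have hch : ∀ e ∈ F'.filter (fun e => v ∈ e), ∃ w, e = s(v, w) := by
        intro e he
        rw [mem_filter] at he
        exact Sym2.mem_iff_exists.1 he.2
      refine le_trans (card_le_card (t := (G.neighborFinset v ∩ supp F').image (fun w => s(v, w)))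
        ?_) card_image_le
      intro e he
      obtain ⟨w, rfl⟩ := hch e he
      rw [mem_filter] at he
      rw [mem_image]
      refine ⟨w, ?_, rfl⟩
      rw [mem_inter, SimpleGraph.mem_neighborFinset]
      have h4 := hF' he.1
      rw [SimpleGraph.mem_edgeFinset, SimpleGraph.mem_edgeSet] at h4
      refine ⟨h4, ?_⟩
      unfold supp
      rw [mem_filter]
      exact ⟨mem_univ _, card_pos.2 ⟨s(v, w), by
        rw [mem_filter]; exact ⟨he.1, Sym2.mem_mk_right v w⟩⟩⟩
    have h5 := sum_le_sum h3
    have h6 : 2 * F'.card ≤ ∑ v ∈ supp F', (G.neighborFinset v ∩ supp F').card := by omega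
    exact_mod_cast h6

theorem hr_le_log (n : ℕ) : hr n ≤ 1 + Real.log n := by
  have h := harmonic_le_one_add_log n
  have h1 : ((harmonic n : ℚ) : ℝ) = hr n := by
    unfold harmonic hr
    push_cast
    apply sum_congr rfl
    intro i _
    rw [one_div]
  rw [← h1]
  exact h

/-- The list edge-colouring conjecture for sparse graphs. -/
theorem sparse (G : SimpleGraph V) [DecidableRel G.Adj]
    (hG : ∀ S : Finset V, S.Nonempty → ((∑ v ∈ S, (G.neighborFinset v ∩ S).card : ℕ) : ℝ) <
      (1 + G.maxDegree / (2 * Real.log G.maxDegree + 4)) * S.card) (k : ℕ) :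
    (G.lineGraph.Colorable k ↔
      ∀ L : G.edgeSet → Finset ℕ, (∀ e, k ≤ (L e).card) →
        ∃ f : G.edgeSet → ℕ, (∀ e, f e ∈ L e) ∧ ∀ e e', G.lineGraph.Adj e e' → f e ≠ f e') ∧
    (G.lineGraph.Colorable k ↔ G.maxDegree ≤ k) := by
  classical
  have hlist : G.maxDegree ≤ k → ∀ L : G.edgeSet → Finset ℕ, (∀ e, k ≤ (L e).card) →
      ∃ f : G.edgeSet → ℕ, (∀ e, f e ∈ L e) ∧ ∀ e e', G.lineGraph.Adj e e' → f e ≠ f e' := by
    intro hk L hL
    have hlog := hr_le_log G.maxDegree
    have hhr : 0 ≤ hr G.maxDegree := by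
      have := hr_mono (Nat.zero_le G.maxDegree)
      rw [hr_zero] at this
      exact this
    have hpos : (0 : ℝ) < 2 * hr G.maxDegree + 2 := by linarith
    refine choosable G G.maxDegree le_rfl (1 + G.maxDegree / (2 * hr G.maxDegree + 2)) ?_ ?_ L
      (fun e => hk.trans (hL e))
    · field_simp
      ring
    · intro S hS
      refine lt_of_lt_of_le (hG S hS) ?_
      apply mul_le_mul_of_nonneg_right _ (Nat.cast_nonneg _)
      have h1 : (G.maxDegree : ℝ) / (2 * Real.log G.maxDegree + 4) ≤
          G.maxDegree / (2 * hr G.maxDegree + 2) := by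
        apply div_le_div_of_nonneg_left (Nat.cast_nonneg _) hpos
        linarith
      linarith
  have hdeg : G.lineGraph.Colorable k → G.maxDegree ≤ k := by
    intro h
    exact G.maxDegree_le_of_forall_degree_le k (degree_le_of_colorable G h)
  have hcol : (∀ L : G.edgeSet → Finset ℕ, (∀ e, k ≤ (L e).card) →
        ∃ f : G.edgeSet → ℕ, (∀ e, f e ∈ L e) ∧ ∀ e e', G.lineGraph.Adj e e' → f e ≠ f e') →
      G.lineGraph.Colorable k := by
    intro h
    obtain ⟨f, hf1, hf2⟩ := h (fun _ => range k) (fun _ => by rw [card_range])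
    exact ⟨SimpleGraph.Coloring.mk (fun e => (⟨f e, mem_range.1 (hf1 e)⟩ : Fin k))
      (fun {e e'} hadj hh => hf2 e e' hadj (congrArg Fin.val hh))⟩
  exact ⟨⟨fun h => hlist (hdeg h), hcol⟩, ⟨hdeg, fun h => hcol (hlist h)⟩⟩

end Pool.Agent.Helper18.LE
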