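import Mathlib

set_option autoImplicit false

/-!
# Halving a bipartite graph

`halving`: if every vertex `b ∈ W` has even degree `2 q b`, then there is a set of edges which has
degree exactly `q b` at every `b ∈ W` and degree at most `⌈deg a / 2⌉` at every vertex `a` of the
other side.
-/

namespace Pool.Agent.Helper18.LE

open Finset

/-- Local enumeration: an index function which is a bijection from each fibre of `key` to an
initial segment of `ℕ`. -/
theorem exists_idx {ε κ : Type*} [DecidableEq ε] [DecidableEq κ] (X : Finset ε) (key : ε → κ) :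
    ∃ idx : ε → ℕ, (∀ e ∈ X, idx e < (X.filter (fun x => key x = key e)).card) ∧
      (∀ e ∈ X, ∀ e' ∈ X, key e = key e' → idx e = idx e' → e = e') ∧
      ∀ k, ∀ i < (X.filter (fun x => key x = k)).card, ∃ e ∈ X, key e = k ∧ idx e = i := by
  classical
  refine ⟨fun e => if h : e ∈ X.filter (fun x => key x = key e) then
    ((X.filter (fun x => key x = key e)).equivFin ⟨e, h⟩).val else 0, ?_, ?_, ?_⟩
  · intro e he
    have h : e ∈ X.filter (fun x => key x = key e) := by rw [mem_filter]; exact ⟨he, rfl⟩
    simp only [h, dif_pos]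
    exact Fin.isLt _
  · intro e he e' he' hk heq
    have h : e ∈ X.filter (fun x => key x = key e) := by rw [mem_filter]; exact ⟨he, rfl⟩
    have h' : e' ∈ X.filter (fun x => key x = key e') := by rw [mem_filter]; exact ⟨he', rfl⟩
    simp only [h, h', dif_pos] at heq
    have key2 : ∀ (k k' : κ) (hkk : k = k') (h1 : e ∈ X.filter (fun x => key x = k))
        (h2 : e' ∈ X.filter (fun x => key x = k')),
        ((X.filter (fun x => key x = k)).equivFin ⟨e, h1⟩).val =
          ((X.filter (fun x => key x = k')).equivFin ⟨e', h2⟩).val → e = e' := by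
      intro k k' hkk h1 h2 hh
      subst hkk
      have := (X.filter (fun x => key x = k)).equivFin.injective (Fin.ext hh)
      exact congrArg Subtype.val this
    exact key2 _ _ hk h h' heq
  · intro k i hi
    let x := (X.filter (fun x => key x = k)).equivFin.symm ⟨i, hi⟩
    have hx : x.1 ∈ X.filter (fun y => key y = k) := x.2
    have hk : key x.1 = k := (mem_filter.1 hx).2
    refine ⟨x.1, (mem_filter.1 hx).1, hk, ?_⟩
    have h : x.1 ∈ X.filter (fun y => key y = key x.1) := by rw [hk]; exact hx
    simp only [h, dif_pos]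
    have key2 : ∀ (k' : κ) (hkk : k' = k) (h1 : x.1 ∈ X.filter (fun y => key y = k')),
        ((X.filter (fun y => key y = k')).equivFin ⟨x.1, h1⟩).val = i := by
      intro k' hkk h1
      subst hkk
      have : (⟨x.1, h1⟩ : {y // y ∈ X.filter (fun y => key y = k')}) = x := rfl
      rw [this]
      simp only [x, Equiv.apply_symm_apply]
    exact key2 _ hk h

/-- Abstract form: if all fibres of `p` have at least two elements and all fibres of `g` have at
most two elements, there is a system of representatives for the fibres of `p` on which `g` is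
injective. -/
theorem exists_transversal {ε P Γ : Type*} [DecidableEq ε] [DecidableEq P] [DecidableEq Γ]
    (X : Finset ε) (p : ε → P) (g : ε → Γ)
    (hp : ∀ e ∈ X, 2 ≤ (X.filter (fun x => p x = p e)).card)
    (hg : ∀ e ∈ X, (X.filter (fun x => g x = g e)).card ≤ 2) :
    ∃ Y ⊆ X, (∀ e ∈ X, ∃ y ∈ Y, p y = p e) ∧ (∀ y ∈ Y, ∀ y' ∈ Y, p y = p y' → y = y') ∧
      (∀ y ∈ Y, ∀ y' ∈ Y, g y = g y' → y = y') := by
  classical
  let ι := {q : P // q ∈ X.image p}
  let t : ι → Finset Γ := fun q => (X.filter (fun x => p x = q.1)).image g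
  have hall : ∀ s : Finset ι, s.card ≤ (s.biUnion t).card := by
    intro s
    let Z : Finset ε := X.filter (fun x => ∃ q ∈ s, q.1 = p x)
    have h1 : 2 * (Z.image p).card ≤ Z.card := by
      apply Finset.mul_card_image_le_card
      intro q hq
      rw [mem_image] at hq
      obtain ⟨e, he, rfl⟩ := hq
      rw [mem_filter] at he
      refine (hp e he.1).trans (card_le_card ?_)
      intro x hx
      rw [mem_filter] at hx
      simp only [Z, mem_filter]
      refine ⟨⟨hx.1, ?_⟩, hx.2⟩
      rw [hx.2]
      exact he.2
    have h2 : Z.card ≤ 2 * (Z.image g).card := by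
      apply Finset.card_le_mul_card_image
      intro q hq
      rw [mem_image] at hq
      obtain ⟨e, he, rfl⟩ := hq
      rw [mem_filter] at he
      refine (card_le_card ?_).trans (hg e he.1)
      intro x hx
      simp only [Z, mem_filter] at hx
      rw [mem_filter]
      exact ⟨hx.1.1, hx.2⟩
    have h3 : s.card ≤ (Z.image p).card := by
      have : s.image Subtype.val ⊆ Z.image p := by
        intro q hq
        rw [mem_image] at hq
        obtain ⟨q', hq', rfl⟩ := hq
        have := q'.2
        rw [mem_image] at this
        obtain ⟨e, he, hpe⟩ := this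
        rw [mem_image]
        refine ⟨e, ?_, hpe⟩
        simp only [Z, mem_filter]
        exact ⟨he, q', hq', hpe.symm⟩
      calc s.card = (s.image Subtype.val).card := by
            rw [card_image_of_injective _ Subtype.val_injective]
        _ ≤ _ := card_le_card this
    have h4 : Z.image g ⊆ s.biUnion t := by
      intro y hy
      rw [mem_image] at hy
      obtain ⟨e, he, rfl⟩ := hy
      simp only [Z, mem_filter] at he
      obtain ⟨he1, q, hq, hqe⟩ := he
      rw [mem_biUnion]
      refine ⟨q, hq, ?_⟩
      simp only [t, mem_image, mem_filter]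
      exact ⟨e, ⟨he1, hqe.symm⟩, rfl⟩
    have h5 := card_le_card h4
    omega
  obtain ⟨f, hf, hft⟩ := (Finset.all_card_le_biUnion_card_iff_exists_injective t).1 hall
  have hch : ∀ q : ι, ∃ e ∈ X, p e = q.1 ∧ g e = f q := by
    intro q
    have := hft q
    simp only [t, mem_image, mem_filter] at this
    obtain ⟨e, ⟨h1, h2⟩, h3⟩ := this
    exact ⟨e, h1, h2, h3⟩
  choose r hrX hrp hrg using hch
  refine ⟨Finset.univ.image r, ?_, ?_, ?_, ?_⟩
  · intro e he
    rw [mem_image] at he
    obtain ⟨q, _, rfl⟩ := he
    exact hrX q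
  · intro e he
    refine ⟨r ⟨p e, mem_image_of_mem p he⟩, mem_image_of_mem r (mem_univ _), ?_⟩
    exact hrp _
  · intro y hy y' hy' h
    rw [mem_image] at hy hy'
    obtain ⟨q, _, rfl⟩ := hy
    obtain ⟨q', _, rfl⟩ := hy'
    rw [hrp, hrp] at h
    rw [Subtype.ext h]
  · intro y hy y' hy' h
    rw [mem_image] at hy hy'
    obtain ⟨q, _, rfl⟩ := hy
    obtain ⟨q', _, rfl⟩ := hy'
    rw [hrg, hrg] at h
    rw [hf h]

/-- The halving lemma. -/
theorem halving {α β : Type*} [DecidableEq α] [DecidableEq β] (E : Finset (α × β)) (q : β → ℕ)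
    (hq : ∀ e ∈ E, (E.filter (fun x => x.2 = e.2)).card = 2 * q e.2) :
    ∃ Y ⊆ E, (∀ e ∈ E, (Y.filter (fun x => x.2 = e.2)).card = q e.2) ∧
      ∀ a, 2 * (Y.filter (fun x => x.1 = a)).card ≤ (E.filter (fun x => x.1 = a)).card + 1 := by
  classical
  obtain ⟨ia, hia1, hia2, hia3⟩ := exists_idx E (fun e => e.1)
  obtain ⟨ib, hib1, hib2, hib3⟩ := exists_idx E (fun e => e.2)
  obtain ⟨Y, hYE, hY1, hY2, hY3⟩ := exists_transversal E (fun e => (e.2, ib e / 2))
    (fun e => (e.1, ia e / 2)) (by
      intro e he
      have h0 := hib1 e he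
      have h1 := hq e he
      have h2 : 2 * (ib e / 2) + 1 < (E.filter (fun x => x.2 = e.2)).card := by omega
      obtain ⟨e₁, he₁, hk₁, hi₁⟩ := hib3 e.2 (2 * (ib e / 2)) (by omega)
      obtain ⟨e₂, he₂, hk₂, hi₂⟩ := hib3 e.2 (2 * (ib e / 2) + 1) h2
      have hne : e₁ ≠ e₂ := by
        rintro rfl
        omega
      refine (card_pair hne).symm.le.trans (card_le_card ?_)
      intro x hx
      rw [mem_insert, mem_singleton] at hx
      rw [mem_filter]
      rcases hx with rfl | rfl
      · refine ⟨he₁, Prod.ext hk₁ ?_⟩
        simp only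
        omega
      · refine ⟨he₂, Prod.ext hk₂ ?_⟩
        simp only
        omega) (by
      intro e he
      have : (E.filter (fun x => (x.1, ia x / 2) = (e.1, ia e / 2))).image ia ⊆
          {2 * (ia e / 2), 2 * (ia e / 2) + 1} := by
        intro i hi
        rw [mem_image] at hi
        obtain ⟨x, hx, rfl⟩ := hi
        rw [mem_filter] at hx
        have := congrArg Prod.snd hx.2
        simp only at this
        rw [mem_insert, mem_singleton]
        omega
      have hc := card_le_card this
      rw [card_image_of_injOn] at hc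
      · exact hc.trans card_le_two
      · intro x hx y hy hxy
        rw [mem_coe, mem_filter] at hx hy
        have h1 := congrArg Prod.fst hx.2
        have h2 := congrArg Prod.fst hy.2
        simp only at h1 h2
        exact hia2 x hx.1 y hy.1 (h1.trans h2.symm) hxy)
  refine ⟨Y, hYE, ?_, ?_⟩
  · intro e he
    -- `ib / 2` is a bijection from `Y(b)` to `range (q b)`
    have hbij : (Y.filter (fun x => x.2 = e.2)).image (fun x => ib x / 2) = range (q e.2) := by
      ext i
      rw [mem_image, mem_range]
      constructor
      · rintro ⟨x, hx, rfl⟩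
        rw [mem_filter] at hx
        have h0 := hib1 x (hYE hx.1)
        simp only [hx.2] at h0
        rw [hq e he] at h0
        omega
      · intro hi
        obtain ⟨e₁, he₁, hk₁, hi₁⟩ := hib3 e.2 (2 * i) (by rw [hq e he]; omega)
        obtain ⟨y, hy, hpy⟩ := hY1 e₁ he₁
        have h1 := congrArg Prod.fst hpy
        have h2 := congrArg Prod.snd hpy
        simp only at h1 h2 hk₁
        refine ⟨y, ?_, ?_⟩
        · rw [mem_filter]
          exact ⟨hy, h1.trans hk₁⟩
        · rw [h2, hi₁]
          omega
    have hc := congrArg Finset.card hbij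
    rw [card_range, card_image_of_injOn] at hc
    · exact hc
    · intro x hx y hy hxy
      rw [mem_coe, mem_filter] at hx hy
      exact hY2 x hx.1 y hy.1 (Prod.ext (hx.2.trans hy.2.symm) hxy)
  · intro a
    have hsub : (Y.filter (fun x => x.1 = a)).image (fun x => ia x / 2) ⊆
        range (((E.filter (fun x => x.1 = a)).card + 1) / 2) := by
      intro i hi
      rw [mem_image] at hi
      obtain ⟨x, hx, rfl⟩ := hi
      rw [mem_filter] at hx
      have h0 := hia1 x (hYE hx.1)
      simp only [hx.2] at h0
      rw [mem_range]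
      omega
    have hc := card_le_card hsub
    rw [card_range, card_image_of_injOn] at hc
    · omega
    · intro x hx y hy hxy
      rw [mem_coe, mem_filter] at hx hy
      exact hY3 x hx.1 y hy.1 (Prod.ext (hx.2.trans hy.2.symm) hxy)

end Pool.Agent.Helper18.LE
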