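import Pool.Agent.Helper18.LE.Chain

set_option autoImplicit false
set_option linter.unusedSectionVars false

/-!
# List edge colouring of sparse graphs

`main_col`: a loopless graph with maximum degree at most `k` in which every nonempty edge set `F'`
satisfies `2 |F'| < d |V(F')|`, `(d - 1) (2 H_k + 2) = k`, is list-edge-colourable from lists of
size `k`.
-/

namespace Pool.Agent.Helper18.LE

open Finset

variable {V : Type*} [DecidableEq V] [Fintype V]

/-- Degree of `v` in the edge set `F`. -/
def dg (F : Finset (Sym2 V)) (v : V) : ℕ := (F.filter (fun e => v ∈ e)).card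

/-- The vertices covered by `F`. -/
def supp (F : Finset (Sym2 V)) : Finset V := univ.filter (fun v => 0 < dg F v)

/-- `F` can be properly edge-coloured from the lists `L`. -/
def Col (F : Finset (Sym2 V)) (L : Sym2 V → Finset ℕ) : Prop :=
  ∃ c : Sym2 V → ℕ, (∀ e ∈ F, c e ∈ L e) ∧
    ∀ e ∈ F, ∀ e' ∈ F, e ≠ e' → (∃ v, v ∈ e ∧ v ∈ e') → c e ≠ c e'

/-- Number of neighbours of `b` in `U`. -/
def mm (F : Finset (Sym2 V)) (U : Finset V) (b : V) : ℕ := (U.filter (fun a => s(a, b) ∈ F)).card

/-- Harmonic numbers. -/
noncomputable def hr (n : ℕ) : ℝ := ∑ i ∈ range n, 1 / ((i : ℝ) + 1)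

theorem hr_succ (n : ℕ) : hr (n + 1) = hr n + 1 / ((n : ℝ) + 1) := by
  unfold hr
  rw [sum_range_succ]

theorem hr_mono : Monotone hr := by
  apply monotone_nat_of_le_succ
  intro n
  rw [hr_succ]
  have : (0 : ℝ) ≤ 1 / ((n : ℝ) + 1) := by positivity
  linarith

theorem hr_zero : hr 0 = 0 := by simp [hr]

theorem hr_one_le {k : ℕ} (hk : 1 ≤ k) : 1 ≤ hr k := by
  have h := hr_mono hk
  have h1 : hr 1 = 1 := by simp [hr]
  linarith

theorem dg_mono {F' F : Finset (Sym2 V)} (h : F' ⊆ F) (v : V) : dg F' v ≤ dg F v :=
  card_le_card (filter_subset_filter _ h)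

theorem sum_dg (F : Finset (Sym2 V)) (hF : ∀ e ∈ F, ¬ e.IsDiag) : ∑ v, dg F v = 2 * F.card := by
  unfold dg
  simp_rw [card_filter]
  rw [sum_comm]
  have : ∀ e ∈ F, ∑ v : V, (if v ∈ e then 1 else 0) = 2 := by
    intro e he
    rw [← card_filter]
    have h1 : univ.filter (fun v => v ∈ e) = e.toFinset := by
      ext v
      simp
    rw [h1, Sym2.card_toFinset_of_not_isDiag e (hF e he)]
  rw [sum_congr rfl this]
  simp [mul_comm]

/-- Extending a colouring by one edge. -/
theorem col_one (F : Finset (Sym2 V)) (L : Sym2 V → Finset ℕ) (u v : V)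
    (he : s(u, v) ∈ F) (hcol : Col (F.erase s(u, v)) L)
    (hL : dg F u + dg F v ≤ (L s(u, v)).card + 1) : Col F L := by
  classical
  obtain ⟨c, hc1, hc2⟩ := hcol
  let N : Finset (Sym2 V) := ((F.filter (fun e => u ∈ e)).erase s(u, v)) ∪
    ((F.filter (fun e => v ∈ e)).erase s(u, v))
  have hN : (N.image c).card < (L s(u, v)).card := by
    have h1 : (N.image c).card ≤ N.card := card_image_le
    have h2 := card_union_le ((F.filter (fun e => u ∈ e)).erase s(u, v))
      ((F.filter (fun e => v ∈ e)).erase s(u, v))
    have h3 : s(u, v) ∈ F.filter (fun e => u ∈ e) := by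
      rw [mem_filter]; exact ⟨he, Sym2.mem_mk_left u v⟩
    have h4 : s(u, v) ∈ F.filter (fun e => v ∈ e) := by
      rw [mem_filter]; exact ⟨he, Sym2.mem_mk_right u v⟩
    have h5 := card_erase_add_one h3
    have h6 := card_erase_add_one h4
    have h7 : (F.filter (fun e => u ∈ e)).card = dg F u := rfl
    have h8 : (F.filter (fun e => v ∈ e)).card = dg F v := rfl
    have h9 : N.card ≤ ((F.filter (fun e => u ∈ e)).erase s(u, v)).card +
      ((F.filter (fun e => v ∈ e)).erase s(u, v)).card := h2
    omega
  obtain ⟨x, hx, hxN⟩ := exists_mem_notMem_of_card_lt_card hN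
  have hadj : ∀ e ∈ F, e ≠ s(u, v) → (∃ w, w ∈ e ∧ w ∈ s(u, v)) → c e ≠ x := by
    rintro e he' hne ⟨w, hw1, hw2⟩ rfl
    apply hxN
    apply mem_image_of_mem
    rw [Sym2.mem_iff] at hw2
    rw [mem_union, mem_erase, mem_erase, mem_filter, mem_filter]
    rcases hw2 with rfl | rfl
    · exact Or.inl ⟨hne, he', hw1⟩
    · exact Or.inr ⟨hne, he', hw1⟩
  refine ⟨fun e => if e = s(u, v) then x else c e, ?_, ?_⟩
  · intro e he'
    by_cases h : e = s(u, v)
    · simp only [h, if_true]
      exact hx
    · simp only [h, if_false]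
      exact hc1 e (mem_erase.2 ⟨h, he'⟩)
  · intro e he₁ e' he₂ hne hsh
    by_cases h : e = s(u, v) <;> by_cases h' : e' = s(u, v)
    · exact absurd (h.trans h'.symm) hne
    · simp only [h, h', if_true, if_false]
      obtain ⟨w, hw1, hw2⟩ := hsh
      rw [h] at hw1
      exact (hadj e' he₂ h' ⟨w, hw2, hw1⟩).symm
    · simp only [h, h', if_true, if_false]
      obtain ⟨w, hw1, hw2⟩ := hsh
      rw [h'] at hw2
      exact hadj e he₁ h ⟨w, hw1, hw2⟩
    · simp only [h, h', if_false]
      exact hc2 e (mem_erase.2 ⟨h, he₁⟩) e' (mem_erase.2 ⟨h', he₂⟩) hne hsh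

/-- Extending a colouring to the stars at an independent set `U`. -/
theorem col_star (F : Finset (Sym2 V)) (L : Sym2 V → Finset ℕ) (U : Finset V)
    (hU : ∀ a ∈ U, ∀ b ∈ U, s(a, b) ∉ F)
    (hcol : Col (F.filter (fun e => ∀ a ∈ U, a ∉ e)) L)
    (hX : ∀ a ∈ U, ∑ b ∈ univ.filter (fun b => s(a, b) ∈ F), 1 / (mm F U b : ℝ) ≤ 1 / 2)
    (hL : ∀ a ∈ U, ∀ b, s(a, b) ∈ F → dg F b ≤ (L s(a, b)).card) : Col F L := by
  classical
  obtain ⟨c', hc1, hc2⟩ := hcol
  set F₀ : Finset (Sym2 V) := F.filter (fun e => ∀ a ∈ U, a ∉ e) with hF₀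
  let E : Finset (V × V) := (U ×ˢ (univ : Finset V)).filter (fun p => s(p.1, p.2) ∈ F)
  have hE : ∀ p : V × V, p ∈ E ↔ p.1 ∈ U ∧ s(p.1, p.2) ∈ F := by
    intro p
    simp [E]
  have hE2 : ∀ p ∈ E, p.2 ∉ U := by
    intro p hp hp2
    rw [hE] at hp
    exact hU p.1 hp.1 p.2 hp2 hp.2
  have hdb : ∀ b, db E b = mm F U b := by
    intro b
    unfold db mm
    apply card_bij (fun p _ => p.1)
    · intro p hp
      rw [mem_filter, hE] at hp
      rw [mem_filter, ← hp.2]
      exact hp.1
    · intro p hp q hq hpq
      rw [mem_filter] at hp hq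
      exact Prod.ext hpq (hp.2.trans hq.2.symm)
    · intro a ha
      rw [mem_filter] at ha
      refine ⟨(a, b), ?_, rfl⟩
      rw [mem_filter, hE]
      exact ⟨ha, rfl⟩
  have hdeg : ∀ b, dg F₀ b + mm F U b ≤ dg F b := by
    intro b
    have h1 : (F₀.filter (fun e => b ∈ e)) ∪
        ((U.filter (fun a => s(a, b) ∈ F)).image (fun a => s(a, b))) ⊆
        F.filter (fun e => b ∈ e) := by
      intro e he
      rw [mem_union, mem_filter, mem_image] at he
      rw [mem_filter]
      rcases he with he | ⟨a, ha, rfl⟩
      · rw [hF₀, mem_filter] at he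
        exact ⟨he.1.1, he.2⟩
      · rw [mem_filter] at ha
        exact ⟨ha.2, Sym2.mem_mk_right a b⟩
    have h2 : Disjoint (F₀.filter (fun e => b ∈ e))
        ((U.filter (fun a => s(a, b) ∈ F)).image (fun a => s(a, b))) := by
      rw [Finset.disjoint_left]
      intro e he he'
      rw [mem_image] at he'
      obtain ⟨a, ha, rfl⟩ := he'
      rw [mem_filter] at ha
      rw [hF₀, mem_filter, mem_filter] at he
      exact he.1.2 a ha.1 (Sym2.mem_mk_left a b)
    have h3 : ((U.filter (fun a => s(a, b) ∈ F)).image (fun a => s(a, b))).card =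
        mm F U b := by
      unfold mm
      apply card_image_of_injective
      intro a a' h
      exact Sym2.congr_left.1 h
    have h4 := card_le_card h1
    rw [card_union_of_disjoint h2, h3] at h4
    exact h4
  obtain ⟨c₀, hc₀1, hc₀2⟩ := lemmaX E (by
      intro a
      by_cases ha : a ∈ U
      · refine le_trans (le_of_eq ?_) (hX a ha)
        apply sum_bij (fun p _ => p.2)
        · intro p hp
          rw [mem_filter, hE] at hp
          rw [mem_filter, ← hp.2]
          exact ⟨mem_univ _, hp.1.2⟩
        · intro p hp q hq hpq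
          rw [mem_filter] at hp hq
          exact Prod.ext (hp.2.trans hq.2.symm) hpq
        · intro b hb
          rw [mem_filter] at hb
          refine ⟨(a, b), ?_, rfl⟩
          rw [mem_filter, hE]
          exact ⟨⟨ha, hb.2⟩, rfl⟩
        · intro p _
          rw [hdb]
      · have : E.filter (fun x => x.1 = a) = ∅ := by
          rw [filter_eq_empty_iff]
          intro p hp h
          rw [hE] at hp
          exact ha (h ▸ hp.1)
        rw [this]
        norm_num)
    (fun p => (L s(p.1, p.2)) \ ((F₀.filter (fun e => p.2 ∈ e)).image c')) (by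
      intro p hp
      have hp' := (hE p).1 hp
      have h1 := hL p.1 hp'.1 p.2 hp'.2
      have h2 := hdeg p.2
      have h3 : ((F₀.filter (fun e => p.2 ∈ e)).image c').card ≤ dg F₀ p.2 := card_image_le
      have h4 := le_card_sdiff ((F₀.filter (fun e => p.2 ∈ e)).image c') (L s(p.1, p.2))
      rw [hdb]
      omega)
  have hdec : ∀ e ∈ F, (∃ p ∈ E, s(p.1, p.2) = e) ∨ e ∈ F₀ := by
    intro e he
    by_cases h : ∀ a ∈ U, a ∉ e
    · right
      rw [hF₀, mem_filter]
      exact ⟨he, h⟩
    · left
      push Not at h
      obtain ⟨a, ha, hae⟩ := h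
      obtain ⟨b, rfl⟩ := Sym2.mem_iff_exists.1 hae
      exact ⟨(a, b), (hE _).2 ⟨ha, he⟩, rfl⟩
  let c : Sym2 V → ℕ := fun e =>
    if h : ∃ p ∈ E, s(p.1, p.2) = e then c₀ h.choose else c' e
  have hcE : ∀ e, (∃ p ∈ E, s(p.1, p.2) = e) → ∃ p ∈ E, s(p.1, p.2) = e ∧ c e = c₀ p := by
    intro e h
    refine ⟨h.choose, h.choose_spec.1, h.choose_spec.2, ?_⟩
    simp only [c, dif_pos h]
  have hcF : ∀ e, ¬ (∃ p ∈ E, s(p.1, p.2) = e) → c e = c' e := by
    intro e h
    simp only [c, dif_neg h]
  refine ⟨c, ?_, ?_⟩
  · intro e he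
    by_cases h : ∃ p ∈ E, s(p.1, p.2) = e
    · obtain ⟨p, hp, hpe, hce⟩ := hcE e h
      rw [hce]
      have := hc₀1 p hp
      rw [mem_sdiff] at this
      rw [← hpe]
      exact this.1
    · rw [hcF e h]
      exact hc1 e ((hdec e he).resolve_left h)
  · have hmix : ∀ e e' : Sym2 V, (∃ p ∈ E, s(p.1, p.2) = e) → ¬ (∃ p ∈ E, s(p.1, p.2) = e') →
        e' ∈ F → (∃ v, v ∈ e ∧ v ∈ e') → c e ≠ c e' := by
      rintro e e' h h' he' ⟨v, hv1, hv2⟩
      obtain ⟨p, hp, hpe, hce⟩ := hcE e h
      rw [hce, hcF e' h']
      have hF' := (hdec e' he').resolve_left h'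
      rw [← hpe, Sym2.mem_iff] at hv1
      have hpU := ((hE p).1 hp).1
      rcases hv1 with rfl | rfl
      · exfalso
        rw [hF₀, mem_filter] at hF'
        exact hF'.2 _ hpU hv2
      · have := hc₀1 p hp
        rw [mem_sdiff] at this
        intro hcon
        apply this.2
        rw [hcon]
        apply mem_image_of_mem
        rw [mem_filter]
        exact ⟨hF', hv2⟩
    intro e he e' he' hne hsh
    by_cases h : ∃ p ∈ E, s(p.1, p.2) = e <;> by_cases h' : ∃ p ∈ E, s(p.1, p.2) = e'
    · obtain ⟨p, hp, hpe, hce⟩ := hcE e h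
      obtain ⟨q, hq, hqe, hce'⟩ := hcE e' h'
      rw [hce, hce']
      apply hc₀2 p hp q hq
      · rintro rfl
        exact hne (hpe.symm.trans hqe)
      · obtain ⟨v, hv1, hv2⟩ := hsh
        rw [← hpe, Sym2.mem_iff] at hv1
        rw [← hqe, Sym2.mem_iff] at hv2
        have hp1 := ((hE p).1 hp).1
        have hq1 := ((hE q).1 hq).1
        have hp2 := hE2 p hp
        have hq2 := hE2 q hq
        rcases hv1 with rfl | rfl
        · rcases hv2 with h | h
          · exact Or.inl h
          · exact absurd (h ▸ hp1) hq2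
        · rcases hv2 with h | h
          · exact absurd (h ▸ hq1) hp2
          · exact Or.inr h
    · exact hmix e e' h h' he' hsh
    · obtain ⟨v, hv1, hv2⟩ := hsh
      exact (hmix e' e h' h he ⟨v, hv2, hv1⟩).symm
    · rw [hcF e h, hcF e' h']
      exact hc2 e ((hdec e he).resolve_left h) e' ((hdec e' he').resolve_left h') hne hsh

/-- Peeling: if no nonempty subset of `A` satisfies the hypothesis of `col_star`, then `A` is
small. -/
theorem peel (F : Finset (Sym2 V)) (A : Finset V)
    (h : ∀ U ⊆ A, U.Nonempty → ∃ a ∈ U,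
      1 / 2 < ∑ b ∈ univ.filter (fun b => s(a, b) ∈ F), 1 / (mm F U b : ℝ)) :
    ∀ n, ∀ U ⊆ A, U.card = n → (n : ℝ) ≤ 2 * ∑ b, hr (mm F U b) := by
  intro n
  induction n with
  | zero =>
    intro U _ hU
    rw [card_eq_zero] at hU
    subst hU
    simp [mm, hr_zero]
  | succ n ih =>
    intro U hUA hU
    obtain ⟨a, ha, hsum⟩ := h U hUA (card_pos.1 (by omega))
    have h1 := ih (U.erase a) ((erase_subset _ _).trans hUA) (by rw [card_erase_of_mem ha]; omega)
    have h2 : ∀ b, hr (mm F U b) = hr (mm F (U.erase a) b) +
        (if s(a, b) ∈ F then 1 / (mm F U b : ℝ) else 0) := by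
      intro b
      by_cases hb : s(a, b) ∈ F
      · have h3 : mm F U b = mm F (U.erase a) b + 1 := by
          unfold mm
          rw [filter_erase, card_erase_add_one]
          rw [mem_filter]
          exact ⟨ha, hb⟩
        rw [if_pos hb, h3, hr_succ]
        push_cast
        rfl
      · have h3 : mm F U b = mm F (U.erase a) b := by
          unfold mm
          rw [filter_erase, erase_eq_of_notMem]
          rw [mem_filter]
          tauto
        rw [if_neg hb, h3, add_zero]
    rw [sum_congr rfl (fun b _ => h2 b), sum_add_distrib, ← sum_filter]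
    push_cast
    linarith

/-- The main induction. -/
theorem main_col (k : ℕ) (d : ℝ) (hd : (d - 1) * (2 * hr k + 2) = k) :
    ∀ (n : ℕ) (F : Finset (Sym2 V)), F.card = n → (∀ e ∈ F, ¬ e.IsDiag) → (∀ v, dg F v ≤ k) →
    (∀ F' ⊆ F, F'.Nonempty → 2 * (F'.card : ℝ) < d * (supp F').card) →
    ∀ L : Sym2 V → Finset ℕ, (∀ e ∈ F, k ≤ (L e).card) → Col F L := by
  intro n
  induction n using Nat.strong_induction_on with
  | _ n ih =>
    intro F hn hF hk hs L hL
    rcases F.eq_empty_or_nonempty with rfl | hne
    · exact ⟨fun _ => 0, by simp, by simp⟩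
    -- `k ≥ 1`
    have hk1 : 1 ≤ k := by
      obtain ⟨e, he⟩ := hne
      induction e using Sym2.ind with
      | _ u v =>
        have h1 := hk u
        have h2 : 0 < dg F u := card_pos.2 ⟨s(u, v), by
          rw [mem_filter]; exact ⟨he, Sym2.mem_mk_left u v⟩⟩
        omega
    have hhr := hr_one_le hk1
    have hk1' : (1 : ℝ) ≤ k := by exact_mod_cast hk1
    have hd0 : 0 < d - 1 := by
      by_contra hcon
      push Not at hcon
      have : (d - 1) * (2 * hr k + 2) ≤ 0 := mul_nonpos_of_nonpos_of_nonneg hcon (by linarith)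
      linarith
    have hd2 : 2 * d < k + 2 := by nlinarith
    by_cases hone : ∃ u v, s(u, v) ∈ F ∧ dg F u + dg F v ≤ k + 1
    · obtain ⟨u, v, huv, hdeg⟩ := hone
      have hsub : F.erase s(u, v) ⊆ F := erase_subset _ _
      have hcard : (F.erase s(u, v)).card < n := by
        rw [card_erase_of_mem huv]
        have := card_pos.2 hne
        omega
      apply col_one F L u v huv
      · exact ih _ hcard _ rfl (fun e he => hF e (hsub he))
          (fun w => (dg_mono hsub w).trans (hk w))
          (fun F' hF' => hs F' (hF'.trans hsub)) L (fun e he => hL e (hsub he))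
      · have := hL _ huv
        omega
    push Not at hone
    let A : Finset V := univ.filter (fun v => 0 < dg F v ∧ (dg F v : ℝ) ≤ d)
    let B : Finset V := univ.filter (fun v => (k : ℝ) + 2 - d ≤ (dg F v : ℝ))
    have hAB : ∀ a ∈ A, ∀ b, s(a, b) ∈ F → b ∈ B := by
      intro a ha b hab
      simp only [A, mem_filter, mem_univ, true_and] at ha
      simp only [B, mem_filter, mem_univ, true_and]
      have h1 := hone a b hab
      have h2 : (k : ℝ) + 2 ≤ dg F a + dg F b := by exact_mod_cast h1
      linarith
    have hBA : ∀ b ∈ B, b ∉ A := by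
      intro b hb ha
      simp only [A, mem_filter, mem_univ, true_and] at ha
      simp only [B, mem_filter, mem_univ, true_and] at hb
      linarith
    by_cases hX : ∃ U ⊆ A, U.Nonempty ∧
        ∀ a ∈ U, ∑ b ∈ univ.filter (fun b => s(a, b) ∈ F), 1 / (mm F U b : ℝ) ≤ 1 / 2
    · obtain ⟨U, hUA, hUne, hU⟩ := hX
      have hsub : F.filter (fun e => ∀ a ∈ U, a ∉ e) ⊆ F := filter_subset _ _
      have hcard : (F.filter (fun e => ∀ a ∈ U, a ∉ e)).card < n := by
        rw [← hn]
        apply card_lt_card
        refine ⟨hsub, fun hcon => ?_⟩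
        obtain ⟨a, ha⟩ := hUne
        have h1 := hUA ha
        simp only [A, mem_filter, mem_univ, true_and] at h1
        obtain ⟨e, he⟩ := card_pos.1 h1.1
        rw [mem_filter] at he
        have h2 := hcon he.1
        rw [mem_filter] at h2
        exact h2.2 a ha he.2
      apply col_star F L U
      · intro a ha b hb hab
        exact hBA b (hAB a (hUA ha) b hab) (hUA hb)
      · exact ih _ hcard _ rfl (fun e he => hF e (hsub he))
          (fun w => (dg_mono hsub w).trans (hk w))
          (fun F' hF' => hs F' (hF'.trans hsub)) L (fun e he => hL e (hsub he))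
      · exact hU
      · intro a _ b hab
        exact (hk b).trans (hL _ hab)
    · exfalso
      push Not at hX
      have hp := peel F A hX A.card A subset_rfl rfl
      -- bound the potential
      have hpot : ∑ b, hr (mm F A b) ≤ B.card * hr k := by
        have h1 : ∀ b, hr (mm F A b) ≤ if b ∈ B then hr k else 0 := by
          intro b
          by_cases hb : b ∈ B
          · rw [if_pos hb]
            apply hr_mono
            refine le_trans ?_ (hk b)
            unfold mm dg
            refine (card_le_card_of_injOn (fun a => s(a, b)) ?_ ?_)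
            · intro a ha
              rw [mem_coe, mem_filter] at ha
              rw [mem_coe, mem_filter]
              exact ⟨ha.2, Sym2.mem_mk_right a b⟩
            · intro a _ a' _ h
              exact Sym2.congr_left.1 h
          · rw [if_neg hb]
            have : mm F A b = 0 := by
              unfold mm
              rw [card_eq_zero, filter_eq_empty_iff]
              intro a ha hab
              exact hb (hAB a ha b hab)
            rw [this, hr_zero]
        calc ∑ b, hr (mm F A b) ≤ ∑ b, if b ∈ B then hr k else 0 :=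
              sum_le_sum (fun b _ => h1 b)
          _ = B.card * hr k := by
              rw [← sum_filter]
              simp
      -- the average degree
      have hav : 2 * (F.card : ℝ) - d * (supp F).card < 0 := by
        have := hs F subset_rfl hne
        linarith
      have hsum : 2 * (F.card : ℝ) - d * (supp F).card =
          ∑ v, (if 0 < dg F v then (dg F v : ℝ) - d else 0) := by
        have h1 : (2 : ℝ) * F.card = ∑ v, (dg F v : ℝ) := by
          have := sum_dg F hF
          have h2 : ((∑ v, dg F v : ℕ) : ℝ) = ((2 * F.card : ℕ) : ℝ) := by rw [this]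
          push_cast at h2
          linarith
        have h2 : ∑ v, (if 0 < dg F v then (dg F v : ℝ) - d else 0) =
            ∑ v, (if 0 < dg F v then (dg F v : ℝ) else 0) - ∑ v, (if 0 < dg F v then d else 0) := by
          rw [← sum_sub_distrib]
          apply sum_congr rfl
          intro v _
          split_ifs <;> ring
        have h3 : ∑ v, (if 0 < dg F v then (dg F v : ℝ) else 0) = ∑ v, (dg F v : ℝ) := by
          apply sum_congr rfl
          intro v _
          split_ifs with h
          · rfl
          · have : dg F v = 0 := by omega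
            rw [this]; simp
        have h4 : ∑ v : V, (if 0 < dg F v then d else 0) = d * (supp F).card := by
          rw [← sum_filter]
          unfold supp
          simp [mul_comm]
        rw [h2, h3, h4, h1]
      have hlow : ∑ v, (if 0 < dg F v then (dg F v : ℝ) - d else 0) ≥
          A.card * (1 - d) + B.card * (k + 2 - 2 * d) := by
        have h1 : ∀ v, (if 0 < dg F v then (dg F v : ℝ) - d else 0) ≥
            (if v ∈ A then 1 - d else 0) + (if v ∈ B then (k : ℝ) + 2 - 2 * d else 0) := by
          intro v
          by_cases hvB : v ∈ B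
          · have hvA := hBA v hvB
            rw [if_neg hvA, if_pos hvB]
            simp only [B, mem_filter, mem_univ, true_and] at hvB
            have h0 : 0 < dg F v := by
              have : (0 : ℝ) < dg F v := by linarith
              exact_mod_cast this
            rw [if_pos h0]
            linarith
          · rw [if_neg hvB]
            by_cases hvA : v ∈ A
            · rw [if_pos hvA]
              simp only [A, mem_filter, mem_univ, true_and] at hvA
              rw [if_pos hvA.1]
              have : (1 : ℝ) ≤ dg F v := by exact_mod_cast hvA.1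
              linarith
            · rw [if_neg hvA]
              simp only [A, mem_filter, mem_univ, true_and, not_and, not_le] at hvA
              split_ifs with h0
              · have := hvA h0
                linarith
              · linarith
        calc ∑ v, (if 0 < dg F v then (dg F v : ℝ) - d else 0) ≥
              ∑ v, ((if v ∈ A then 1 - d else 0) + (if v ∈ B then (k : ℝ) + 2 - 2 * d else 0)) :=
              sum_le_sum (fun v _ => h1 v)
          _ = A.card * (1 - d) + B.card * (k + 2 - 2 * d) := by
              rw [sum_add_distrib, ← sum_filter, ← sum_filter]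
              simp only [sum_const, nsmul_eq_mul, filter_univ_mem]
      have h1 : (B.card : ℝ) * (k + 2 - 2 * d) < (d - 1) * A.card := by
        rw [hsum] at hav
        nlinarith
      have h2 : (A.card : ℝ) ≤ 2 * (B.card * hr k) := by linarith
      have h3 : (d - 1) * A.card ≤ (d - 1) * (2 * (B.card * hr k)) :=
        mul_le_mul_of_nonneg_left h2 hd0.le
      have h4 : (d - 1) * (2 * (B.card * hr k)) = B.card * (k + 2 - 2 * d) := by
        have : (d - 1) * (2 * hr k) = k + 2 - 2 * d := by linarith
        rw [← this]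
        ring
      linarith

end Pool.Agent.Helper18.LE
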